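import Mathlib
import Pool.Agent.Y515.SY.RG

/-!
# Powers of the distance to a point
-/

set_option autoImplicit false

open Set Filter Topology MeasureTheory
open scoped Manifold ContDiff

noncomputable section

namespace Pool.Agent.V7H86.SG

open Pool.Agent.Y501.SY Pool.Agent.Y515.SY

variable {d : ℕ}

theorem pow_int0 {γ R : ℝ} (hγ0 : 0 ≤ γ) (hγ : γ < d) :
    IntegrableOn (fun q : E d => ‖q‖ ^ (-γ)) (Metric.ball 0 R) := by
  have hd : 0 < d := by
    have : (0 : ℝ) < d := lt_of_le_of_lt hγ0 hγ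
    exact_mod_cast this
  haveI : Nonempty (Fin d) := ⟨⟨0, hd⟩⟩
  haveI : Nontrivial (E d) := by infer_instance
  by_cases hR : R ≤ 0
  · rw [Metric.ball_eq_empty.2 hR]
    exact integrableOn_empty
  rw [not_le] at hR
  have h := (integrableOn_fun_norm_addHaar (E := E d) (μ := volume)
    (f := fun t : ℝ => t ^ (-γ)) (r := R)).2
  refine h ?_
  have hfr : Module.finrank ℝ (E d) = d := by simp
  rw [hfr]
  have h1 : IntegrableOn (fun x : ℝ => x ^ ((d : ℝ) - 1 - γ)) (Ioo 0 R) := by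
    rw [intervalIntegral.integrableOn_Ioo_rpow_iff hR]
    linarith
  refine h1.congr_fun ?_ measurableSet_Ioo
  intro x hx
  have hx0 : 0 < x := hx.1
  have h2 : ((d - 1 : ℕ) : ℝ) = (d : ℝ) - 1 := by
    rw [Nat.cast_sub hd]
    simp
  change x ^ ((d : ℝ) - 1 - γ) = x ^ (d - 1) • x ^ (-γ)
  rw [smul_eq_mul, ← Real.rpow_natCast x (d - 1), ← Real.rpow_add hx0, h2]
  congr 1

theorem pow_int (p₀ : E d) {γ R : ℝ} (hγ0 : 0 ≤ γ) (hγ : γ < d) :
    IntegrableOn (fun q : E d => ‖q - p₀‖ ^ (-γ)) (Metric.ball p₀ R) := by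
  have h := pow_int0 (d := d) (R := R) hγ0 hγ
  rw [← integrable_indicator_iff measurableSet_ball] at h ⊢
  have h2 := h.comp_sub_right p₀
  refine h2.congr (Eventually.of_forall fun q => ?_)
  dsimp only
  by_cases hq : q ∈ Metric.ball p₀ R
  · have h3 : q - p₀ ∈ Metric.ball (0 : E d) R := by
      rw [mem_ball_zero_iff]
      rwa [Metric.mem_ball, dist_eq_norm] at hq
    rw [indicator_of_mem hq, indicator_of_mem h3]
  · have h3 : q - p₀ ∉ Metric.ball (0 : E d) R := by
      rw [mem_ball_zero_iff]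
      rwa [Metric.mem_ball, dist_eq_norm] at hq
    rw [indicator_of_notMem hq, indicator_of_notMem h3]

/-- The mean of a power of the distance. -/
def KK (ρ : E d → ℝ) (γ : ℝ) (u : E d) : ℝ := ∫ y, ρ y * ‖u + y‖ ^ (-γ)

theorem KK_integrable {ρ : E d → ℝ} (hρ : Moll 1 ρ) {γ : ℝ} (hγ0 : 0 ≤ γ) (hγ : γ < d) (u : E d) :
    Integrable (fun y => ρ y * ‖u + y‖ ^ (-γ)) := by
  obtain ⟨C, hC⟩ := hρ.smooth.continuous.bounded_above_of_compact_support (moll_cs hρ)
  have h1 := pow_int (-u) (R := 2 + ‖u‖) hγ0 hγ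
  have h1' : IntegrableOn (fun q : E d => ‖q - -u‖ ^ (-γ)) (Metric.ball 0 1) := by
    refine h1.mono_set fun q hq => ?_
    rw [mem_ball_zero_iff] at hq
    rw [Metric.mem_ball, dist_eq_norm, sub_neg_eq_add]
    have := norm_add_le q u
    linarith
  rw [← integrable_indicator_iff measurableSet_ball] at h1'
  have h2 : Integrable (fun q : E d => ρ q *
      (Metric.ball (0 : E d) 1).indicator (fun q => ‖q - -u‖ ^ (-γ)) q) := by
    refine h1'.bdd_mul hρ.smooth.continuous.aestronglyMeasurable (c := C)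
      (Eventually.of_forall hC)
  refine h2.congr (Eventually.of_forall fun q => ?_)
  dsimp only
  by_cases hq : q ∈ Metric.ball (0 : E d) 1
  · rw [indicator_of_mem hq, sub_neg_eq_add, add_comm]
  · rw [hρ.supp q (by rw [mem_ball_zero_iff] at hq; exact not_lt.1 hq), zero_mul, zero_mul]

/-- The mean of a power of the distance is bounded by a regularized power. -/
theorem KK_bound {ρ : E d → ℝ} (hρ : Moll 1 ρ) {γ : ℝ} (hγ0 : 0 ≤ γ) (hγ : γ < d) :
    ∃ C : ℝ, 0 < C ∧ ∀ u : E d, KK ρ γ u ≤ C * (‖u‖ ^ 2 + 1) ^ (-(γ / 2)) := by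
  obtain ⟨S, hS⟩ := hρ.smooth.continuous.bounded_above_of_compact_support (moll_cs hρ)
  have hS0 : 0 ≤ S := (norm_nonneg _).trans (hS 0)
  obtain ⟨I, hI⟩ : ∃ I : ℝ, I = ∫ q in Metric.ball (0 : E d) 3, ‖q‖ ^ (-γ) := ⟨_, rfl⟩
  have hIint := pow_int0 (d := d) (R := 3) hγ0 hγ
  have hI0 : 0 ≤ I := by
    rw [hI]
    exact integral_nonneg fun q => Real.rpow_nonneg (norm_nonneg _) _
  refine ⟨(S * I + 1) * (5 : ℝ) ^ (γ / 2) + (5 : ℝ) ^ (γ / 2), by positivity, fun u => ?_⟩
  have hP : 0 < (‖u‖ ^ 2 + 1) ^ (-(γ / 2)) := Real.rpow_pos_of_pos (by positivity) _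
  by_cases hu : ‖u‖ < 2
  · -- small `u`
    have h1 : KK ρ γ u ≤ S * I := by
      have h2 : ∫ y, ρ y * ‖u + y‖ ^ (-γ) ≤
          ∫ y, S * (Metric.ball (0 : E d) 3).indicator (fun q => ‖q‖ ^ (-γ)) (u + y) := by
        refine integral_mono (KK_integrable hρ hγ0 hγ u) ?_ fun y => ?_
        · rw [← integrable_indicator_iff measurableSet_ball] at hIint
          exact (hIint.comp_add_left u).const_mul S
        · dsimp only
          by_cases hy : ‖y‖ < 1
          · have h3 : u + y ∈ Metric.ball (0 : E d) 3 := by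
              rw [mem_ball_zero_iff]
              have := norm_add_le u y
              linarith
            rw [indicator_of_mem h3]
            refine mul_le_mul_of_nonneg_right ?_ (Real.rpow_nonneg (norm_nonneg _) _)
            exact (le_abs_self _).trans (hS y)
          · rw [hρ.supp y (not_lt.1 hy), zero_mul]
            refine mul_nonneg hS0 (indicator_nonneg (fun q _ => ?_) _)
            exact Real.rpow_nonneg (norm_nonneg _) _
      refine h2.trans (le_of_eq ?_)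
      rw [integral_const_mul, integral_add_left_eq_self
        (fun y => (Metric.ball (0 : E d) 3).indicator (fun q : E d => ‖q‖ ^ (-γ)) y) u,
        integral_indicator measurableSet_ball, hI]
    have h4 : 1 ≤ (5 : ℝ) ^ (γ / 2) * (‖u‖ ^ 2 + 1) ^ (-(γ / 2)) := by
      rw [Real.rpow_neg (by positivity), ← div_eq_mul_inv, one_le_div (by positivity)]
      refine Real.rpow_le_rpow (by positivity) ?_ (by positivity)
      nlinarith [norm_nonneg u]
    have h6 : 0 ≤ (5 : ℝ) ^ (γ / 2) * (‖u‖ ^ 2 + 1) ^ (-(γ / 2)) := by positivity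
    calc KK ρ γ u ≤ S * I := h1
      _ ≤ (S * I + 1) * 1 + 0 := by linarith
      _ ≤ (S * I + 1) * ((5 : ℝ) ^ (γ / 2) * (‖u‖ ^ 2 + 1) ^ (-(γ / 2))) +
          (5 : ℝ) ^ (γ / 2) * (‖u‖ ^ 2 + 1) ^ (-(γ / 2)) := by
          have h7 : 0 ≤ S * I + 1 := by positivity
          nlinarith
      _ = _ := by ring
  · rw [not_lt] at hu
    have hu0 : 0 < ‖u‖ := by linarith
    have h1 : KK ρ γ u ≤ (5 : ℝ) ^ (γ / 2) * (‖u‖ ^ 2 + 1) ^ (-(γ / 2)) := by
      have h2 : ∫ y, ρ y * ‖u + y‖ ^ (-γ) ≤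
          ∫ y, ρ y * ((5 : ℝ) ^ (γ / 2) * (‖u‖ ^ 2 + 1) ^ (-(γ / 2))) := by
        refine integral_mono (KK_integrable hρ hγ0 hγ u) ((moll_int hρ).mul_const _) fun y => ?_
        dsimp only
        by_cases hy : ‖y‖ < 1
        · refine mul_le_mul_of_nonneg_left ?_ (hρ.nonneg y)
          have h3 : ‖u‖ / 2 ≤ ‖u + y‖ := by
            have := norm_sub_norm_le u (-y)
            rw [norm_neg, sub_neg_eq_add] at this
            linarith
          have h5 : 0 < ‖u + y‖ := by linarith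
          have h4 : (‖u‖ ^ 2 + 1) / 5 ≤ ‖u + y‖ ^ 2 := by nlinarith
          have h6 : ‖u + y‖ ^ (-γ) = (‖u + y‖ ^ 2) ^ (-(γ / 2)) := by
            rw [← Real.rpow_natCast, ← Real.rpow_mul h5.le]
            congr 1
            push_cast
            ring
          rw [h6]
          have h7 : (5 : ℝ) ^ (γ / 2) * (‖u‖ ^ 2 + 1) ^ (-(γ / 2)) =
              ((‖u‖ ^ 2 + 1) / 5) ^ (-(γ / 2)) := by
            rw [Real.div_rpow (by positivity) (by norm_num), Real.rpow_neg (by norm_num : (0:ℝ) ≤ 5)]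
            field_simp
          rw [h7]
          exact Real.rpow_le_rpow_of_nonpos (by positivity) h4 (by linarith)
        · rw [hρ.supp y (not_lt.1 hy), zero_mul, zero_mul]
      refine h2.trans (le_of_eq ?_)
      rw [integral_mul_const, hρ.int, one_mul]
    have h8 : 0 ≤ (S * I + 1) * (5 : ℝ) ^ (γ / 2) * (‖u‖ ^ 2 + 1) ^ (-(γ / 2)) := by positivity
    calc KK ρ γ u ≤ (5 : ℝ) ^ (γ / 2) * (‖u‖ ^ 2 + 1) ^ (-(γ / 2)) := h1
      _ ≤ _ := by
        rw [add_mul]
        linarith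

end Pool.Agent.V7H86.SG
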