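import Mathlib
import Pool.Agent.V7H86.SG.Pow

/-!
# Closed forms in the sense of distributions, and isolated singularities
-/

set_option autoImplicit false

open Set Filter Topology MeasureTheory
open scoped Manifold ContDiff

noncomputable section

namespace Pool.Agent.V7H86.SG

open Pool.Agent.Y501.SY Pool.Agent.Y515.SY

variable {d : ℕ}

/-- the alternating sum of the derivatives of `ψ` times the values of `s` -/
def TT (s : E d → Al d 2) (a b c : E d) (ψ : E d → ℝ) (q : E d) : ℝ :=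
  fderiv ℝ ψ q a * s q ![b, c] - fderiv ℝ ψ q b * s q ![a, c] + fderiv ℝ ψ q c * s q ![a, b]

/-- `s` is closed on `Ω` in the sense of distributions. -/
def WC (s : E d → Al d 2) (Ω : Set (E d)) : Prop :=
  ∀ ψ : E d → ℝ, ContDiff ℝ ∞ ψ → HasCompactSupport ψ → tsupport ψ ⊆ Ω → ∀ a b c : E d,
    ∫ q, TT s a b c ψ q = 0

theorem ext3 {s : E d → Al d 2} {q : E d} (h : DifferentiableAt ℝ s q) (a b c : E d) :
    extDeriv s q ![a, b, c] = fderiv ℝ (fun x => s x ![b, c]) q a -
      fderiv ℝ (fun x => s x ![a, c]) q b + fderiv ℝ (fun x => s x ![a, b]) q c := by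
  rw [extDeriv_apply h, Fin.sum_univ_three]
  have e0 : (0 : Fin 3).removeNth ![a, b, c] = ![b, c] := by
    ext i
    fin_cases i <;> rfl
  have e1 : (1 : Fin 3).removeNth ![a, b, c] = ![a, c] := by
    ext i
    fin_cases i <;> rfl
  have e2 : (2 : Fin 3).removeNth ![a, b, c] = ![a, b] := by
    ext i
    fin_cases i <;> rfl
  rw [e0, e1, e2]
  simp
  ring

theorem mul_integrable {g f : E d → ℝ} {P : Set (E d)} (hP : IsOpen P) (hg : Continuous g)
    (hgc : HasCompactSupport g) (hgP : tsupport g ⊆ P) (hf : ContinuousOn f P) :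
    Integrable (fun q => g q * f q) := by
  have h1 : HasCompactSupport (fun q => g q * f q) := hgc.mul_right
  have h2 : Continuous (fun q => g q * f q) := by
    rw [continuous_iff_continuousAt]
    intro x
    by_cases hx : x ∈ P
    · exact hg.continuousAt.mul (hf.continuousAt (hP.mem_nhds hx))
    · have h3 : x ∉ tsupport g := fun h => hx (hgP h)
      have h4 : g =ᶠ[𝓝 x] 0 := notMem_tsupport_iff_eventuallyEq.1 h3
      have h5 : (fun q => g q * f q) =ᶠ[𝓝 x] fun _ => 0 := by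
        filter_upwards [h4] with q hq
        rw [hq]
        simp
      exact continuousAt_const.congr h5.symm
  exact h2.integrable_of_hasCompactSupport h1

theorem ev_diff {s : E d → Al d 2} {P : Set (E d)} (_hP : IsOpen P) (hs : ContDiffOn ℝ ∞ s P)
    (v : Fin 2 → E d) : ContDiffOn ℝ ∞ (fun q => s q v) P :=
  (ContinuousAlternatingMap.apply ℝ (E d) ℝ v).contDiff.comp_contDiffOn hs

theorem fderiv_tsupport {ψ : E d → ℝ} (a : E d) :
    tsupport (fun q => fderiv ℝ ψ q a) ⊆ tsupport ψ := by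
  refine closure_minimal (fun q hq => ?_) (isClosed_tsupport ψ)
  by_contra h
  apply hq
  have h1 : ψ =ᶠ[𝓝 q] 0 := notMem_tsupport_iff_eventuallyEq.1 h
  have h2 : fderiv ℝ ψ q = 0 := by
    rw [h1.fderiv_eq]
    simp
  simp [h2]

theorem WC_off {s : E d → Al d 2} {P : Set (E d)} (hP : IsOpen P) (hs : ContDiffOn ℝ ∞ s P)
    (hcl : ∀ p ∈ P, extDeriv s p = 0) : WC s P := by
  intro ψ hψ hψc hψP a b c
  have hdψ : ∀ v : E d, Continuous (fun q => fderiv ℝ ψ q v) := fun v =>
    (hψ.continuous_fderiv (by simp)).clm_apply continuous_const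
  have hdc : ∀ v : E d, HasCompactSupport (fun q => fderiv ℝ ψ q v) := fun v =>
    hψc.fderiv_apply (𝕜 := ℝ) v
  have key : ∀ u v w : E d, Integrable (fun q => fderiv ℝ ψ q u * s q ![v, w]) ∧
      Integrable (fun q => ψ q * fderiv ℝ (fun x => s x ![v, w]) q u) ∧
      ∫ q, fderiv ℝ ψ q u * s q ![v, w] = -∫ q, ψ q * fderiv ℝ (fun x => s x ![v, w]) q u := by
    intro u v w
    have hsv := ev_diff hP hs ![v, w]
    have i1 : Integrable (fun q => fderiv ℝ ψ q u * s q ![v, w]) :=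
      mul_integrable hP (hdψ u) (hdc u) ((fderiv_tsupport u).trans hψP) hsv.continuousOn
    have i2 : Integrable (fun q => ψ q * fderiv ℝ (fun x => s x ![v, w]) q u) := by
      refine mul_integrable hP hψ.continuous hψc hψP ?_
      exact (hsv.continuousOn_fderiv_of_isOpen hP (by simp)).clm_apply continuousOn_const
    have i3 : Integrable (fun q => ψ q * s q ![v, w]) :=
      mul_integrable hP hψ.continuous hψc hψP hsv.continuousOn
    refine ⟨i1, i2, ?_⟩
    have h1 := integral_mul_fderiv_eq_neg_fderiv_mul_of_integrable (μ := (volume : Measure (E d)))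
      (f := fun q => s q ![v, w]) (g := ψ) (v := u)
      (i2.congr (Eventually.of_forall fun q => mul_comm _ _))
      (i1.congr (Eventually.of_forall fun q => mul_comm _ _))
      (i3.congr (Eventually.of_forall fun q => mul_comm _ _))
      (fun x hx => (hsv.contDiffAt (hP.mem_nhds (hψP hx))).differentiableAt (by simp))
      (fun x _ => hψ.contDiffAt.differentiableAt (by simp))
    calc ∫ q, fderiv ℝ ψ q u * s q ![v, w] = ∫ q, s q ![v, w] * fderiv ℝ ψ q u := by
          congr 1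
          ext q
          ring
      _ = -∫ q, fderiv ℝ (fun x => s x ![v, w]) q u * ψ q := h1
      _ = _ := by
          congr 2
          ext q
          ring
  obtain ⟨a1, a2, a3⟩ := key a b c
  obtain ⟨b1, b2, b3⟩ := key b a c
  obtain ⟨c1, c2, c3⟩ := key c a b
  have h1 : ∫ q, TT s a b c ψ q = (∫ q, fderiv ℝ ψ q a * s q ![b, c]) -
      (∫ q, fderiv ℝ ψ q b * s q ![a, c]) + ∫ q, fderiv ℝ ψ q c * s q ![a, b] := by
    rw [← integral_sub a1 b1]
    exact integral_add (a1.sub b1) c1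
  have h2 : (∫ q, ψ q * fderiv ℝ (fun x => s x ![b, c]) q a) -
      (∫ q, ψ q * fderiv ℝ (fun x => s x ![a, c]) q b) +
      ∫ q, ψ q * fderiv ℝ (fun x => s x ![a, b]) q c = 0 := by
    rw [← integral_sub a2 b2]
    have h3 := integral_add (a2.sub b2) c2
    refine h3.symm.trans ?_
    refine integral_eq_zero_of_ae (Eventually.of_forall fun q => ?_)
    change ψ q * fderiv ℝ (fun x => s x ![b, c]) q a -
      ψ q * fderiv ℝ (fun x => s x ![a, c]) q b +
      ψ q * fderiv ℝ (fun x => s x ![a, b]) q c = 0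
    by_cases hq : q ∈ tsupport ψ
    · have hqP := hψP hq
      have h4 := ext3 ((hs.contDiffAt (hP.mem_nhds hqP)).differentiableAt (by simp)) a b c
      rw [hcl q hqP] at h4
      have h5 : (0 : Al d 3) ![a, b, c] = 0 := rfl
      rw [h5] at h4
      rw [← mul_sub, ← mul_add, ← h4, mul_zero]
    · rw [image_eq_zero_of_notMem_tsupport hq]
      ring
  rw [h1, a3, b3, c3]
  linarith

theorem TT_bound (s : E d → Al d 2) (a b c : E d) (ψ : E d → ℝ) (q : E d) :
    |TT s a b c ψ q| ≤ 3 * (‖a‖ * ‖b‖ * ‖c‖) * (‖fderiv ℝ ψ q‖ * ‖s q‖) := by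
  have h : ∀ u v w : E d, |fderiv ℝ ψ q u * s q ![v, w]| ≤
      (‖u‖ * ‖v‖ * ‖w‖) * (‖fderiv ℝ ψ q‖ * ‖s q‖) := by
    intro u v w
    rw [abs_mul]
    have h1 : |fderiv ℝ ψ q u| ≤ ‖fderiv ℝ ψ q‖ * ‖u‖ := (fderiv ℝ ψ q).le_opNorm u
    have h2 := two_bound (s q) v w
    calc |fderiv ℝ ψ q u| * |s q ![v, w]| ≤ (‖fderiv ℝ ψ q‖ * ‖u‖) * (‖s q‖ * (‖v‖ * ‖w‖)) :=
          mul_le_mul h1 h2 (abs_nonneg _) (by positivity)
      _ = _ := by ring
  have h1 := h a b c
  have h2 := h b a c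
  have h3 := h c a b
  unfold TT
  have h4 := abs_add_le (fderiv ℝ ψ q a * s q ![b, c] - fderiv ℝ ψ q b * s q ![a, c])
    (fderiv ℝ ψ q c * s q ![a, b])
  have h5 := abs_sub (fderiv ℝ ψ q a * s q ![b, c]) (fderiv ℝ ψ q b * s q ![a, c])
  have e2 : ‖b‖ * ‖a‖ * ‖c‖ = ‖a‖ * ‖b‖ * ‖c‖ := by ring
  have e3 : ‖c‖ * ‖a‖ * ‖b‖ = ‖a‖ * ‖b‖ * ‖c‖ := by ring
  rw [e2] at h2
  rw [e3] at h3
  linarith

end Pool.Agent.V7H86.SG
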