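import Mathlib
import Pool.Agent.V7H86.SG.Wk

/-!
# Isolated singularities of closed forms
-/

set_option autoImplicit false

open Set Filter Topology MeasureTheory
open scoped Manifold ContDiff

noncomputable section

namespace Pool.Agent.V7H86.SG

open Pool.Agent.Y501.SY Pool.Agent.Y515.SY

variable {d : ℕ}

theorem single_null {γ : ℝ} (hγ0 : 0 ≤ γ) (hγ : γ < d) (p₀ : E d) :
    volume ({p₀} : Set (E d)) = 0 := by
  have hd : 0 < d := by
    have : (0 : ℝ) < d := lt_of_le_of_lt hγ0 hγ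
    exact_mod_cast this
  have : Nonempty (Fin d) := ⟨⟨0, hd⟩⟩
  have : Nontrivial (E d) := by infer_instance
  exact measure_singleton p₀

theorem ae_ne_pt {γ : ℝ} (hγ0 : 0 ≤ γ) (hγ : γ < d) (p₀ : E d) : ∀ᵐ q : E d, q ≠ p₀ := by
  have h := measure_eq_zero_iff_ae_notMem.1 (single_null hγ0 hγ p₀)
  filter_upwards [h] with q hq using hq

theorem fderiv_zero_off {φ : E d → ℝ} {q : E d} (h : q ∉ tsupport φ) : fderiv ℝ φ q = 0 := by
  have h1 : φ =ᶠ[𝓝 q] 0 := notMem_tsupport_iff_eventuallyEq.1 h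
  rw [h1.fderiv_eq]
  simp

theorem TT_zero_off {s : E d → Al d 2} {a b c : E d} {φ : E d → ℝ} {q : E d}
    (h : q ∉ tsupport φ) : TT s a b c φ q = 0 := by
  unfold TT
  rw [fderiv_zero_off h]
  simp

theorem TT_cont {s : E d → Al d 2} {P : Set (E d)} (hP : IsOpen P) (hs : ContDiffOn ℝ ∞ s P)
    (a b c : E d) {φ : E d → ℝ} (hφ : ContDiff ℝ ∞ φ) : ContinuousOn (TT s a b c φ) P := by
  have hdφ : ∀ v : E d, ContinuousOn (fun q => fderiv ℝ φ q v) P := fun v =>
    ((hφ.continuous_fderiv (by simp)).clm_apply continuous_const).continuousOn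
  have hsv : ∀ v w : E d, ContinuousOn (fun q => s q ![v, w]) P := fun v w =>
    (ev_diff hP hs ![v, w]).continuousOn
  exact (((hdφ a).mul (hsv b c)).sub ((hdφ b).mul (hsv a c))).add ((hdφ c).mul (hsv a b))

theorem TT_integrable {s : E d → Al d 2} {p₀ : E d} {R B γ : ℝ} (hγ0 : 0 ≤ γ)
    (hγ : γ < d) (hs : ContDiffOn ℝ ∞ s (Metric.ball p₀ R \ {p₀}))
    (hb : ∀ p ∈ Metric.ball p₀ R \ {p₀}, ‖s p‖ ≤ B * ‖p - p₀‖ ^ (-γ)) (a b c : E d)
    {φ : E d → ℝ} (hφ : ContDiff ℝ ∞ φ) (hφc : HasCompactSupport φ)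
    (hφR : tsupport φ ⊆ Metric.ball p₀ R) : Integrable (TT s a b c φ) := by
  have hP : IsOpen (Metric.ball p₀ R \ {p₀}) :=
    Metric.isOpen_ball.sdiff isClosed_singleton
  obtain ⟨M, hM⟩ := (hφ.continuous_fderiv (by simp)).bounded_above_of_compact_support
    (hφc.fderiv ℝ)
  have hM0 : 0 ≤ M := (norm_nonneg _).trans (hM 0)
  have hae := ae_ne_pt hγ0 hγ p₀
  have h1 : AEStronglyMeasurable (TT s a b c φ) volume := by
    have h2 : AEStronglyMeasurable ((Metric.ball p₀ R \ {p₀}).indicator (TT s a b c φ))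
        volume := by
      rw [aestronglyMeasurable_indicator_iff hP.measurableSet]
      exact (TT_cont hP hs a b c hφ).aestronglyMeasurable hP.measurableSet
    refine h2.congr ?_
    filter_upwards [hae] with q hq
    by_cases h : q ∈ Metric.ball p₀ R
    · rw [indicator_of_mem (show q ∈ Metric.ball p₀ R \ {p₀} from ⟨h, hq⟩)]
    · rw [indicator_of_notMem (fun h' : q ∈ Metric.ball p₀ R \ {p₀} => h h'.1),
        TT_zero_off fun h' => h (hφR h')]
  have h3 := pow_int p₀ (R := R) hγ0 hγ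
  rw [← integrable_indicator_iff measurableSet_ball] at h3
  refine (h3.const_mul (3 * (‖a‖ * ‖b‖ * ‖c‖) * (M * |B|))).mono' h1 ?_
  filter_upwards [hae] with q hq
  by_cases h : q ∈ Metric.ball p₀ R
  · rw [indicator_of_mem h, Real.norm_eq_abs]
    refine (TT_bound s a b c φ q).trans ?_
    have h4 : ‖s q‖ ≤ |B| * ‖q - p₀‖ ^ (-γ) := (hb q ⟨h, hq⟩).trans
      (mul_le_mul_of_nonneg_right (le_abs_self _) (Real.rpow_nonneg (norm_nonneg _) _))
    calc 3 * (‖a‖ * ‖b‖ * ‖c‖) * (‖fderiv ℝ φ q‖ * ‖s q‖)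
        ≤ 3 * (‖a‖ * ‖b‖ * ‖c‖) * (M * (|B| * ‖q - p₀‖ ^ (-γ))) :=
          mul_le_mul_of_nonneg_left (mul_le_mul (hM q) h4 (norm_nonneg _) hM0) (by positivity)
      _ = _ := by ring
  · rw [indicator_of_notMem h, TT_zero_off fun h' => h (hφR h')]
    simp

theorem TT_add {s : E d → Al d 2} (a b c : E d) {φ ψ : E d → ℝ} (hφ : ContDiff ℝ ∞ φ)
    (hψ : ContDiff ℝ ∞ ψ) (q : E d) :
    TT s a b c (fun q => φ q + ψ q) q = TT s a b c φ q + TT s a b c ψ q := by
  unfold TT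
  have h1 : fderiv ℝ (fun q => φ q + ψ q) q = fderiv ℝ φ q + fderiv ℝ ψ q :=
    fderiv_fun_add (hφ.contDiffAt.differentiableAt (by simp))
      (hψ.contDiffAt.differentiableAt (by simp))
  rw [h1]
  simp only [_root_.add_apply]
  ring

/-- cut-off functions near a point -/
theorem cut_exists (p₀ : E d) : ∃ M : ℝ, 0 ≤ M ∧ ∀ δ : ℝ, 0 < δ → ∃ η : E d → ℝ,
    ContDiff ℝ ∞ η ∧ (∀ q, 0 ≤ η q) ∧ (∀ q, η q ≤ 1) ∧ (∀ q, ‖q - p₀‖ < δ → η q = 1) ∧
    (∀ q, 2 * δ ≤ ‖q - p₀‖ → η q = 0) ∧ ∀ q, ‖fderiv ℝ η q‖ ≤ M / δ := by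
  let f : ContDiffBump (0 : E d) := ⟨1, 2, one_pos, one_lt_two⟩
  have hf : ContDiff ℝ ∞ (f : E d → ℝ) := f.contDiff
  obtain ⟨M, hM⟩ := (hf.continuous_fderiv (by simp)).bounded_above_of_compact_support
    (f.hasCompactSupport.fderiv ℝ)
  have hM0 : 0 ≤ M := (norm_nonneg _).trans (hM 0)
  refine ⟨M, hM0, fun δ hδ => ?_⟩
  have hg : ∀ q : E d, HasFDerivAt (fun q : E d => δ⁻¹ • (q - p₀))
      (δ⁻¹ • ContinuousLinearMap.id ℝ (E d)) q := by
    intro q
    exact ((hasFDerivAt_id q).sub_const p₀).const_smul δ⁻¹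
  have hn : ∀ q : E d, ‖δ⁻¹ • (q - p₀)‖ = ‖q - p₀‖ / δ := by
    intro q
    rw [norm_smul, Real.norm_of_nonneg (inv_nonneg.2 hδ.le), div_eq_inv_mul]
  refine ⟨fun q => f (δ⁻¹ • (q - p₀)), ?_, fun q => f.nonneg, fun q => f.le_one, ?_, ?_, ?_⟩
  · exact hf.comp ((contDiff_id.sub contDiff_const).const_smul δ⁻¹)
  · intro q hq
    apply f.one_of_mem_closedBall
    rw [mem_closedBall_zero_iff, hn]
    exact (div_le_one hδ).2 hq.le
  · intro q hq
    apply f.zero_of_le_dist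
    rw [dist_zero_right, hn]
    exact (le_div_iff₀ hδ).2 hq
  · intro q
    have h1 : HasFDerivAt (fun q => f (δ⁻¹ • (q - p₀)))
        ((fderiv ℝ f (δ⁻¹ • (q - p₀))).comp (δ⁻¹ • ContinuousLinearMap.id ℝ (E d))) q :=
      ((hf.contDiffAt.differentiableAt (by simp)).hasFDerivAt).comp q (hg q)
    rw [h1.fderiv]
    refine (ContinuousLinearMap.opNorm_comp_le _ _).trans ?_
    have h2 : ‖δ⁻¹ • ContinuousLinearMap.id ℝ (E d)‖ ≤ δ⁻¹ := by
      rw [norm_smul, Real.norm_of_nonneg (inv_nonneg.2 hδ.le)]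
      have := ContinuousLinearMap.norm_id_le (𝕜 := ℝ) (E := E d)
      have h3 : 0 ≤ δ⁻¹ := inv_nonneg.2 hδ.le
      nlinarith
    rw [div_eq_mul_inv]
    exact mul_le_mul (hM _) h2 (norm_nonneg _) hM0

/-- A closed form with a singularity of order less than `d - 1` at one point is closed in the
sense of distributions. -/
theorem WC_point {s : E d → Al d 2} {p₀ : E d} {R B γ : ℝ} (hγ0 : 0 ≤ γ)
    (hγ : γ < (d : ℝ) - 1) (hs : ContDiffOn ℝ ∞ s (Metric.ball p₀ R \ {p₀}))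
    (hcl : ∀ p ∈ Metric.ball p₀ R \ {p₀}, extDeriv s p = 0)
    (hb : ∀ p ∈ Metric.ball p₀ R \ {p₀}, ‖s p‖ ≤ B * ‖p - p₀‖ ^ (-γ)) :
    WC s (Metric.ball p₀ R) := by
  intro ψ hψ hψc hψR a b c
  have hP : IsOpen (Metric.ball p₀ R \ {p₀}) :=
    Metric.isOpen_ball.sdiff isClosed_singleton
  have hγd : γ < d := by linarith
  obtain ⟨γ', hγ'⟩ : ∃ γ', γ' = (γ + 1 + d) / 2 := ⟨_, rfl⟩
  have hγ'0 : 0 ≤ γ' := by rw [hγ']; have : (0 : ℝ) ≤ d := Nat.cast_nonneg d; linarith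
  have hγ'd : γ' < d := by rw [hγ']; linarith
  have he : 0 < γ' - γ - 1 := by rw [hγ']; linarith
  obtain ⟨M, hM0, hcut⟩ := cut_exists p₀
  obtain ⟨M₀, hM₀⟩ := hψ.continuous.bounded_above_of_compact_support hψc
  have hM₀0 : 0 ≤ M₀ := (norm_nonneg _).trans (hM₀ 0)
  obtain ⟨M₁, hM₁⟩ := (hψ.continuous_fderiv (by simp)).bounded_above_of_compact_support
    (hψc.fderiv ℝ)
  have hM₁0 : 0 ≤ M₁ := (norm_nonneg _).trans (hM₁ 0)
  have hI := pow_int p₀ (R := R) hγ'0 hγ'd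
  rw [← integrable_indicator_iff measurableSet_ball] at hI
  obtain ⟨I, hIdef⟩ : ∃ I : ℝ, I = ∫ q, (Metric.ball p₀ R).indicator
    (fun q : E d => ‖q - p₀‖ ^ (-γ')) q := ⟨_, rfl⟩
  obtain ⟨K, hK⟩ : ∃ K : ℝ, K = (3 * (‖a‖ * ‖b‖ * ‖c‖) * ((M₁ + M₀ * M) * |B|)) *
    (2 : ℝ) ^ (γ' - γ) * I := ⟨_, rfl⟩
  have key : ∀ δ : ℝ, 0 < δ → δ ≤ 1 → |∫ q, TT s a b c ψ q| ≤ K * δ ^ (γ' - γ - 1) := by
    intro δ hδ hδ1
    obtain ⟨η, hη, hη0, hη1, hη2, hη3, hη4⟩ := hcut δ hδ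
    have c1 : ContDiff ℝ ∞ (fun q => η q * ψ q) := hη.mul hψ
    have c2 : ContDiff ℝ ∞ (fun q => (1 - η q) * ψ q) := (contDiff_const.sub hη).mul hψ
    have s1 : HasCompactSupport (fun q => η q * ψ q) := hψc.mul_left
    have s2 : HasCompactSupport (fun q => (1 - η q) * ψ q) := hψc.mul_left
    have t1 : tsupport (fun q => η q * ψ q) ⊆ Metric.ball p₀ R :=
      (tsupport_mul_subset_right).trans hψR
    have t2 : tsupport (fun q => (1 - η q) * ψ q) ⊆ Metric.ball p₀ R :=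
      (tsupport_mul_subset_right).trans hψR
    have t3 : tsupport (fun q => (1 - η q) * ψ q) ⊆ Metric.ball p₀ R \ {p₀} := by
      intro q hq
      refine ⟨t2 hq, fun h => ?_⟩
      rw [mem_singleton_iff] at h
      rw [h] at hq
      refine (notMem_tsupport_iff_eventuallyEq.2 ?_) hq
      filter_upwards [Metric.ball_mem_nhds p₀ hδ] with x hx
      rw [hη2 x (by rwa [Metric.mem_ball, dist_eq_norm] at hx)]
      simp
    have i1 := TT_integrable hγ0 hγd hs hb a b c c1 s1 t1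
    have i2 := TT_integrable hγ0 hγd hs hb a b c c2 s2 t2
    have h0 := WC_off hP hs hcl _ c2 s2 t3 a b c
    have h1 : ∫ q, TT s a b c ψ q = ∫ q, TT s a b c (fun q => η q * ψ q) q := by
      have h2 : ∀ q, TT s a b c ψ q = TT s a b c (fun q => η q * ψ q) q +
          TT s a b c (fun q => (1 - η q) * ψ q) q := by
        intro q
        rw [← TT_add a b c c1 c2 q]
        congr 1
        ext x
        ring
      simp_rw [h2]
      rw [integral_add i1 i2, h0, add_zero]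
    rw [h1]
    refine (abs_integral_le_integral_abs).trans ?_
    have h3 : ∀ᵐ q : E d, |TT s a b c (fun q => η q * ψ q) q| ≤
        (3 * (‖a‖ * ‖b‖ * ‖c‖) * ((M₁ + M₀ * M) / δ * |B|)) * (2 * δ) ^ (γ' - γ) *
        (Metric.ball p₀ R).indicator (fun q : E d => ‖q - p₀‖ ^ (-γ')) q := by
      filter_upwards [ae_ne_pt hγ0 hγd p₀] with q hq
      have hq0 : 0 < ‖q - p₀‖ := norm_pos_iff.2 (sub_ne_zero.2 hq)
      by_cases h : q ∈ tsupport (fun q => η q * ψ q)
      · have hqR := t1 h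
        rw [indicator_of_mem hqR]
        have h4 : ‖q - p₀‖ ≤ 2 * δ := by
          by_contra hcon
          rw [not_le] at hcon
          refine (notMem_tsupport_iff_eventuallyEq.2 ?_) h
          have h5 : ∀ᶠ x in 𝓝 q, 2 * δ < ‖x - p₀‖ := by
            have : ContinuousAt (fun x : E d => ‖x - p₀‖) q := by fun_prop
            exact this.eventually_const_lt hcon
          filter_upwards [h5] with x hx
          rw [hη3 x hx.le]
          simp
        have h5 : ‖fderiv ℝ (fun q => η q * ψ q) q‖ ≤ (M₁ + M₀ * M) / δ := by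
          have e1 : fderiv ℝ (fun q => η q * ψ q) q = η q • fderiv ℝ ψ q + ψ q • fderiv ℝ η q :=
            fderiv_fun_mul (hη.contDiffAt.differentiableAt (by simp))
              (hψ.contDiffAt.differentiableAt (by simp))
          rw [e1]
          refine (norm_add_le _ _).trans ?_
          rw [norm_smul, norm_smul, Real.norm_of_nonneg (hη0 q), add_div]
          have e2 : η q * ‖fderiv ℝ ψ q‖ ≤ M₁ / δ := by
            have e3 : M₁ ≤ M₁ / δ := by
              rw [le_div_iff₀ hδ]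
              nlinarith
            have := hM₁ q
            have := norm_nonneg (fderiv ℝ ψ q)
            nlinarith [hη0 q, hη1 q]
          have e4 : ‖ψ q‖ * ‖fderiv ℝ η q‖ ≤ M₀ * M / δ := by
            rw [mul_div_assoc]
            exact mul_le_mul (hM₀ q) (hη4 q) (norm_nonneg _) hM₀0
          exact add_le_add e2 e4
        have h6 : ‖s q‖ ≤ |B| * ((2 * δ) ^ (γ' - γ) * ‖q - p₀‖ ^ (-γ')) := by
          refine (hb q ⟨hqR, hq⟩).trans ?_
          have e1 : ‖q - p₀‖ ^ (-γ) ≤ (2 * δ) ^ (γ' - γ) * ‖q - p₀‖ ^ (-γ') := by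
            have e2 : ‖q - p₀‖ ^ (-γ) = ‖q - p₀‖ ^ (γ' - γ) * ‖q - p₀‖ ^ (-γ') := by
              rw [← Real.rpow_add hq0]
              congr 1
              ring
            rw [e2]
            refine mul_le_mul_of_nonneg_right ?_ (Real.rpow_nonneg hq0.le _)
            exact Real.rpow_le_rpow hq0.le h4 (by linarith)
          calc B * ‖q - p₀‖ ^ (-γ) ≤ |B| * ‖q - p₀‖ ^ (-γ) :=
                mul_le_mul_of_nonneg_right (le_abs_self _) (Real.rpow_nonneg hq0.le _)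
            _ ≤ _ := mul_le_mul_of_nonneg_left e1 (abs_nonneg _)
        refine (TT_bound s a b c _ q).trans ?_
        calc 3 * (‖a‖ * ‖b‖ * ‖c‖) * (‖fderiv ℝ (fun q => η q * ψ q) q‖ * ‖s q‖)
            ≤ 3 * (‖a‖ * ‖b‖ * ‖c‖) * ((M₁ + M₀ * M) / δ *
              (|B| * ((2 * δ) ^ (γ' - γ) * ‖q - p₀‖ ^ (-γ')))) := by
              refine mul_le_mul_of_nonneg_left ?_ (by positivity)
              exact mul_le_mul h5 h6 (norm_nonneg _) (by positivity)
          _ = _ := by ring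
      · rw [TT_zero_off h, abs_zero]
        refine mul_nonneg (by positivity) (indicator_nonneg (fun x _ => ?_) _)
        exact Real.rpow_nonneg (norm_nonneg _) _
    refine (integral_mono_ae i1.abs (hI.const_mul _) h3).trans (le_of_eq ?_)
    rw [integral_const_mul, ← hIdef, hK, Real.mul_rpow (by norm_num) hδ.le]
    have e5 : δ ^ (γ' - γ) = δ ^ (γ' - γ - 1) * δ := by
      rw [← Real.rpow_add_one hδ.ne']
      congr 1
      ring
    rw [e5]
    field_simp
  have hlim : Tendsto (fun δ : ℝ => K * δ ^ (γ' - γ - 1)) (𝓝[>] 0) (𝓝 (K * 0)) := by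
    refine Tendsto.const_mul K ?_
    have h1 : ContinuousAt (fun δ : ℝ => δ ^ (γ' - γ - 1)) 0 :=
      Real.continuousAt_rpow_const 0 _ (Or.inr he.le)
    have h2 := h1.tendsto
    rw [Real.zero_rpow he.ne'] at h2
    exact h2.mono_left nhdsWithin_le_nhds
  have hle : |∫ q, TT s a b c ψ q| ≤ K * 0 := by
    refine ge_of_tendsto hlim ?_
    have : ∀ᶠ δ : ℝ in 𝓝[>] 0, δ ∈ Ioc (0 : ℝ) 1 := Ioc_mem_nhdsGT one_pos
    filter_upwards [this] with δ hδ using key δ hδ.1 hδ.2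
  rw [mul_zero] at hle
  exact abs_eq_zero.1 (le_antisymm hle (abs_nonneg _))

end Pool.Agent.V7H86.SG
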