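import Mathlib
import Pool.Agent.V7H86.SG.Wk2

/-!
# Mollification of integrable forms
-/

set_option autoImplicit false

open Set Filter Topology MeasureTheory
open scoped Manifold ContDiff Convolution

noncomputable section

namespace Pool.Agent.V7H86.SG

open Pool.Agent.Y501.SY Pool.Agent.Y515.SY

variable {d : ℕ}

theorem mol_integrable {ρ : E d → ℝ} {ε : ℝ} (hρ : Moll ε ρ) {Φ : E d → Al d 2}
    (hΦ : Integrable Φ) (p : E d) : Integrable (fun y => ρ y • Φ (p + y)) := by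
  obtain ⟨C, hC⟩ := hρ.smooth.continuous.bounded_above_of_compact_support (moll_cs hρ)
  exact (hΦ.comp_add_left p).bdd_smul C hρ.smooth.continuous.aestronglyMeasurable
    (Eventually.of_forall hC)

theorem ev_integrable {Φ : E d → Al d 2} (hΦ : Integrable Φ) (v w : E d) :
    Integrable (fun q => Φ q ![v, w]) :=
  (ContinuousAlternatingMap.apply ℝ (E d) ℝ ![v, w]).integrable_comp hΦ

theorem mol_eval {ρ : E d → ℝ} {ε : ℝ} (hρ : Moll ε ρ) {Φ : E d → Al d 2}
    (hΦ : Integrable Φ) (p v w : E d) :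
    mol ρ Φ p ![v, w] = ∫ y, ρ y * Φ (p + y) ![v, w] := by
  have h := (ContinuousAlternatingMap.apply ℝ (E d) ℝ ![v, w]).integral_comp_comm
    (mol_integrable hρ hΦ p)
  exact h.symm

/-- the reflected kernel -/
def refl (ρ : E d → ℝ) (u : E d) : ℝ := ρ (-u)

theorem refl_smooth {ρ : E d → ℝ} {ε : ℝ} (hρ : Moll ε ρ) : ContDiff ℝ ∞ (refl ρ) :=
  hρ.smooth.comp contDiff_neg

theorem refl_cs {ρ : E d → ℝ} {ε : ℝ} (hρ : Moll ε ρ) : HasCompactSupport (refl ρ) :=
  (moll_cs hρ).comp_homeomorph (Homeomorph.neg (E d))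

theorem mol_conv {ρ : E d → ℝ} {ε : ℝ} (hρ : Moll ε ρ) {Φ : E d → Al d 2}
    (hΦ : Integrable Φ) (p v w : E d) :
    mol ρ Φ p ![v, w] = ((fun q => Φ q ![v, w]) ⋆[ContinuousLinearMap.mul ℝ ℝ] refl ρ) p := by
  rw [mol_eval hρ hΦ, convolution_def]
  have h := integral_add_left_eq_self (μ := (volume : Measure (E d)))
    (fun t => ρ (t - p) * Φ t ![v, w]) p
  simp only [add_sub_cancel_left] at h
  rw [h]
  congr 1
  ext t
  unfold refl
  rw [neg_sub]
  exact mul_comm _ _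

theorem mol_smooth {ρ : E d → ℝ} {ε : ℝ} (hρ : Moll ε ρ) {Φ : E d → Al d 2}
    (hΦ : Integrable Φ) : ContDiff ℝ ∞ (mol ρ Φ) := by
  rw [contDiff_iff_contDiffAt]
  intro x
  apply contDiffAt_of_eval
  intro v w
  have h1 : (fun p => mol ρ Φ p ![v, w]) =
      ((fun q => Φ q ![v, w]) ⋆[ContinuousLinearMap.mul ℝ ℝ] refl ρ) := by
    ext p
    exact mol_conv hρ hΦ p v w
  rw [h1]
  exact ((refl_cs hρ).contDiff_convolution_right (ContinuousLinearMap.mul ℝ ℝ)
    (ev_integrable hΦ v w).locallyIntegrable (refl_smooth hρ)).contDiffAt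

theorem fderiv_refl {ρ : E d → ℝ} {ε : ℝ} (hρ : Moll ε ρ) (p q u : E d) :
    fderiv ℝ (refl ρ) (p - q) u = -fderiv ℝ (fun x => ρ (x - p)) q u := by
  have hd : DifferentiableAt ℝ ρ (q - p) :=
    hρ.smooth.contDiffAt.differentiableAt (by simp)
  have h1 : HasFDerivAt (refl ρ) ((fderiv ℝ ρ (q - p)).comp
      (-ContinuousLinearMap.id ℝ (E d))) (p - q) := by
    have h2 : HasFDerivAt (fun u : E d => -u) (-ContinuousLinearMap.id ℝ (E d)) (p - q) :=
      (hasFDerivAt_id (p - q)).neg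
    have h3 : HasFDerivAt ρ (fderiv ℝ ρ (q - p)) (-(p - q)) := by
      rw [neg_sub]
      exact hd.hasFDerivAt
    exact h3.comp (p - q) h2
  have h4 : HasFDerivAt (fun x => ρ (x - p)) ((fderiv ℝ ρ (q - p)).comp
      (ContinuousLinearMap.id ℝ (E d))) q := by
    have h2 : HasFDerivAt (fun x : E d => x - p) (ContinuousLinearMap.id ℝ (E d)) q :=
      (hasFDerivAt_id q).sub_const p
    exact hd.hasFDerivAt.comp q h2
  rw [h1.fderiv, h4.fderiv]
  simp

theorem mol_deriv {ρ : E d → ℝ} {ε : ℝ} (hρ : Moll ε ρ) {Φ : E d → Al d 2}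
    (hΦ : Integrable Φ) (p u v w : E d) :
    fderiv ℝ (fun x => mol ρ Φ x ![v, w]) p u =
      -∫ q, fderiv ℝ (fun x => ρ (x - p)) q u * Φ q ![v, w] := by
  have h1 : (fun p => mol ρ Φ p ![v, w]) =
      ((fun q => Φ q ![v, w]) ⋆[ContinuousLinearMap.mul ℝ ℝ] refl ρ) := by
    ext p
    exact mol_conv hρ hΦ p v w
  have hg1 : ContDiff ℝ 1 (refl ρ) := (refl_smooth hρ).of_le (by simp)
  have h2 := (refl_cs hρ).hasFDerivAt_convolution_right (ContinuousLinearMap.mul ℝ ℝ)
    (ev_integrable hΦ v w).locallyIntegrable hg1 p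
  rw [h1, h2.fderiv, convolution_precompR_apply (ContinuousLinearMap.mul ℝ ℝ)
    (ev_integrable hΦ v w).locallyIntegrable ((refl_cs hρ).fderiv ℝ)
    (hg1.continuous_fderiv (by simp)), convolution_def, ← integral_neg]
  congr 1
  ext q
  change Φ q ![v, w] * fderiv ℝ (refl ρ) (p - q) u = _
  rw [fderiv_refl hρ]
  ring

theorem trans_smooth {ρ : E d → ℝ} {ε : ℝ} (hρ : Moll ε ρ) (p : E d) :
    ContDiff ℝ ∞ (fun q => ρ (q - p)) :=
  hρ.smooth.comp (contDiff_id.sub contDiff_const)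

theorem trans_tsupport {ρ : E d → ℝ} {ε : ℝ} (hρ : Moll ε ρ) (p : E d) :
    tsupport (fun q => ρ (q - p)) ⊆ Metric.closedBall p ε := by
  refine closure_minimal (fun q hq => ?_) Metric.isClosed_closedBall
  rw [Metric.mem_closedBall, dist_eq_norm]
  by_contra h
  exact hq (hρ.supp _ (not_le.1 h).le)

theorem trans_cs {ρ : E d → ℝ} {ε : ℝ} (hρ : Moll ε ρ) (p : E d) :
    HasCompactSupport (fun q => ρ (q - p)) :=
  (isCompact_closedBall p ε).of_isClosed_subset (isClosed_tsupport _) (trans_tsupport hρ p)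

theorem TTf_integrable {Φ : E d → Al d 2} (hΦ : Integrable Φ) {ψ : E d → ℝ}
    (hψ : ContDiff ℝ ∞ ψ) (hψc : HasCompactSupport ψ) (u v w : E d) :
    Integrable (fun q => fderiv ℝ ψ q u * Φ q ![v, w]) := by
  have h1 : Continuous (fun q => fderiv ℝ ψ q u) :=
    (hψ.continuous_fderiv (by simp)).clm_apply continuous_const
  obtain ⟨C, hC⟩ := h1.bounded_above_of_compact_support (hψc.fderiv_apply (𝕜 := ℝ) u)
  exact (ev_integrable hΦ v w).bdd_mul h1.aestronglyMeasurable (Eventually.of_forall hC)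

/-- The mollification of a weakly closed form is closed. -/
theorem mol_closed {ρ : E d → ℝ} {ε : ℝ} (hρ : Moll ε ρ) {Φ : E d → Al d 2}
    (hΦ : Integrable Φ) {Ω : Set (E d)} (hW : WC Φ Ω) {p : E d}
    (hp : Metric.closedBall p ε ⊆ Ω) : extDeriv (mol ρ Φ) p = 0 := by
  apply ContinuousAlternatingMap.ext
  intro v
  have hv : v = ![v 0, v 1, v 2] := by
    ext i
    fin_cases i <;> rfl
  rw [hv, ext3 ((mol_smooth hρ hΦ).contDiffAt.differentiableAt (by simp)), mol_deriv hρ hΦ,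
    mol_deriv hρ hΦ, mol_deriv hρ hΦ]
  have h1 := hW _ (trans_smooth hρ p) (trans_cs hρ p) ((trans_tsupport hρ p).trans hp)
    (v 0) (v 1) (v 2)
  have i1 := TTf_integrable hΦ (trans_smooth hρ p) (trans_cs hρ p) (v 0) (v 1) (v 2)
  have i2 := TTf_integrable hΦ (trans_smooth hρ p) (trans_cs hρ p) (v 1) (v 0) (v 2)
  have i3 := TTf_integrable hΦ (trans_smooth hρ p) (trans_cs hρ p) (v 2) (v 0) (v 1)
  have h2 : ∫ q, TT Φ (v 0) (v 1) (v 2) (fun x => ρ (x - p)) q =
      (∫ q, fderiv ℝ (fun x => ρ (x - p)) q (v 0) * Φ q ![v 1, v 2]) -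
      (∫ q, fderiv ℝ (fun x => ρ (x - p)) q (v 1) * Φ q ![v 0, v 2]) +
      ∫ q, fderiv ℝ (fun x => ρ (x - p)) q (v 2) * Φ q ![v 0, v 1] := by
    rw [← integral_sub i1 i2]
    exact integral_add (i1.sub i2) i3
  rw [h2] at h1
  change _ = (0 : ℝ)
  linarith

/-- the form extended by zero -/
def cutS (s : E d → Al d 2) (Ω : Set (E d)) : E d → Al d 2 := Ω.indicator s

theorem TT_congr {s t : E d → Al d 2} {Ω : Set (E d)} (h : ∀ q ∈ Ω, s q = t q)
    {ψ : E d → ℝ} (hψ : tsupport ψ ⊆ Ω) (a b c : E d) : TT s a b c ψ = TT t a b c ψ := by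
  ext q
  by_cases hq : q ∈ tsupport ψ
  · unfold TT
    rw [h q (hψ hq)]
  · rw [TT_zero_off hq, TT_zero_off hq]

theorem WC_cut {s : E d → Al d 2} {Ω : Set (E d)} (h : WC s Ω) : WC (cutS s Ω) Ω := by
  intro ψ hψ hψc hψΩ a b c
  rw [TT_congr (s := cutS s Ω) (t := s) (fun q hq => indicator_of_mem hq s) hψΩ]
  exact h ψ hψ hψc hψΩ a b c

theorem mol_cut {ρ : E d → ℝ} {ε : ℝ} (hρ : Moll ε ρ) (s : E d → Al d 2) {Ω : Set (E d)}
    {p : E d} (hp : Metric.closedBall p ε ⊆ Ω) : mol ρ (cutS s Ω) p = mol ρ s p := by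
  unfold mol
  congr 1
  ext1 y
  by_cases hy : ε ≤ ‖y‖
  · rw [hρ.supp y hy, zero_smul, zero_smul]
  · have h1 : p + y ∈ Ω := by
      apply hp
      rw [Metric.mem_closedBall, dist_eq_norm, add_sub_cancel_left]
      exact (not_le.1 hy).le
    unfold cutS
    rw [indicator_of_mem h1]

/-- the truncation of a form with a singularity of order less than `d` is integrable -/
theorem cut_integrable {s : E d → Al d 2} {p₀ : E d} {R B γ : ℝ} (hγ0 : 0 ≤ γ)
    (hγ : γ < d) (hs : ContDiffOn ℝ ∞ s (Metric.ball p₀ R \ {p₀}))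
    (hb : ∀ p ∈ Metric.ball p₀ R \ {p₀}, ‖s p‖ ≤ B * ‖p - p₀‖ ^ (-γ)) :
    Integrable (cutS s (Metric.ball p₀ R)) := by
  have hP : IsOpen (Metric.ball p₀ R \ {p₀}) :=
    Metric.isOpen_ball.sdiff isClosed_singleton
  have hae := ae_ne_pt hγ0 hγ p₀
  have h1 : AEStronglyMeasurable (cutS s (Metric.ball p₀ R)) volume := by
    have h2 : AEStronglyMeasurable ((Metric.ball p₀ R \ {p₀}).indicator s) volume := by
      rw [aestronglyMeasurable_indicator_iff hP.measurableSet]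
      exact hs.continuousOn.aestronglyMeasurable hP.measurableSet
    refine h2.congr ?_
    filter_upwards [hae] with q hq
    unfold cutS
    by_cases h : q ∈ Metric.ball p₀ R
    · rw [indicator_of_mem (show q ∈ Metric.ball p₀ R \ {p₀} from ⟨h, hq⟩), indicator_of_mem h]
    · rw [indicator_of_notMem (fun h' : q ∈ Metric.ball p₀ R \ {p₀} => h h'.1),
        indicator_of_notMem h]
  have h3 := pow_int p₀ (R := R) hγ0 hγ
  rw [← integrable_indicator_iff measurableSet_ball] at h3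
  refine (h3.const_mul |B|).mono' h1 ?_
  filter_upwards [hae] with q hq
  unfold cutS
  by_cases h : q ∈ Metric.ball p₀ R
  · rw [indicator_of_mem h, indicator_of_mem h]
    exact (hb q ⟨h, hq⟩).trans
      (mul_le_mul_of_nonneg_right (le_abs_self _) (Real.rpow_nonneg (norm_nonneg _) _))
  · rw [indicator_of_notMem h, indicator_of_notMem h]
    simp

end Pool.Agent.V7H86.SG
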