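import Mathlib
import Pool.Agent.V7H86.SG.Mo

/-!
# Scaled mollifiers and the lower bound
-/

set_option autoImplicit false

open Set Filter Topology MeasureTheory
open scoped Manifold ContDiff Convolution

noncomputable section

namespace Pool.Agent.V7H86.SG

open Pool.Agent.Y501.SY Pool.Agent.Y515.SY

variable {d : ℕ}

/-- the scaled kernel -/
def sc (ρ : E d → ℝ) (ε : ℝ) (y : E d) : ℝ := (ε ^ d)⁻¹ * ρ (ε⁻¹ • y)

theorem sc_smul (ρ : E d → ℝ) {ε : ℝ} (hε : 0 < ε) (x : E d) :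
    sc ρ ε (ε • x) = (ε ^ d)⁻¹ * ρ x := by
  unfold sc
  rw [smul_smul, inv_mul_cancel₀ hε.ne', one_smul]

theorem sc_integral (ρ : E d → ℝ) {ε : ℝ} (hε : 0 < ε) (F : E d → ℝ) :
    ∫ y, sc ρ ε y * F y = ∫ x, ρ x * F (ε • x) := by
  have h := Measure.integral_comp_smul (volume : Measure (E d)) (fun y => sc ρ ε y * F y) ε
  have hfr : Module.finrank ℝ (E d) = d := by simp
  rw [hfr, abs_of_pos (by positivity)] at h
  have h2 : ∫ x, sc ρ ε (ε • x) * F (ε • x) = (ε ^ d)⁻¹ * ∫ x, ρ x * F (ε • x) := by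
    rw [← integral_const_mul]
    congr 1
    ext x
    rw [sc_smul ρ hε]
    ring
  rw [h2, smul_eq_mul] at h
  exact (mul_left_cancel₀ (by positivity) h).symm

theorem sc_moll {ρ : E d → ℝ} (hρ : Moll 1 ρ) {ε : ℝ} (hε : 0 < ε) : Moll ε (sc ρ ε) := by
  refine ⟨?_, ?_, ?_, ?_⟩
  · exact contDiff_const.mul (hρ.smooth.comp (contDiff_id.const_smul ε⁻¹))
  · intro y
    exact mul_nonneg (by positivity) (hρ.nonneg _)
  · intro y hy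
    unfold sc
    rw [hρ.supp, mul_zero]
    rw [norm_smul, Real.norm_of_nonneg (by positivity), inv_mul_eq_div, le_div_iff₀ hε]
    linarith
  · have h := sc_integral ρ hε (fun _ => 1)
    simp only [mul_one] at h
    rw [h, hρ.int]

theorem pow_scale {γ : ℝ} {ε : ℝ} (hε : 0 < ε) (u x : E d) :
    ‖u + ε • x‖ ^ (-γ) = ε ^ (-γ) * ‖ε⁻¹ • u + x‖ ^ (-γ) := by
  have h1 : u + ε • x = ε • (ε⁻¹ • u + x) := by
    rw [smul_add, smul_smul, mul_inv_cancel₀ hε.ne', one_smul]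
  rw [h1, norm_smul, Real.norm_of_nonneg hε.le, Real.mul_rpow hε.le (norm_nonneg _)]

theorem sc_KK (ρ : E d → ℝ) {γ : ℝ} {ε : ℝ} (hε : 0 < ε) (u : E d) :
    ∫ y, sc ρ ε y * ‖u + y‖ ^ (-γ) = ε ^ (-γ) * KK ρ γ (ε⁻¹ • u) := by
  rw [sc_integral ρ hε (fun y => ‖u + y‖ ^ (-γ))]
  unfold KK
  rw [← integral_const_mul]
  congr 1
  ext x
  rw [pow_scale hε]
  ring

theorem sc_KK_integrable {ρ : E d → ℝ} (hρ : Moll 1 ρ) {γ : ℝ} (hγ0 : 0 ≤ γ) (hγ : γ < d)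
    {ε : ℝ} (hε : 0 < ε) (u : E d) : Integrable (fun y => sc ρ ε y * ‖u + y‖ ^ (-γ)) := by
  rw [← integrable_comp_smul_iff (volume : Measure (E d)) _ hε.ne']
  refine ((KK_integrable hρ hγ0 hγ (ε⁻¹ • u)).const_mul ((ε ^ d)⁻¹ * ε ^ (-γ))).congr
    (Eventually.of_forall fun x => ?_)
  dsimp only
  rw [sc_smul ρ hε, pow_scale hε]
  ring

theorem sc_KK_bound {ρ : E d → ℝ} {γ : ℝ} {C : ℝ}
    (hC : ∀ u : E d, KK ρ γ u ≤ C * (‖u‖ ^ 2 + 1) ^ (-(γ / 2))) {ε : ℝ} (hε : 0 < ε)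
    (u : E d) :
    ∫ y, sc ρ ε y * ‖u + y‖ ^ (-γ) ≤ C * (‖u‖ ^ 2 + ε ^ 2) ^ (-(γ / 2)) := by
  rw [sc_KK ρ hε]
  have h1 : ‖u‖ ^ 2 + ε ^ 2 = ε ^ 2 * (‖ε⁻¹ • u‖ ^ 2 + 1) := by
    rw [norm_smul, Real.norm_of_nonneg (by positivity)]
    field_simp
  rw [h1, Real.mul_rpow (by positivity) (by positivity)]
  have h2 : (ε ^ 2) ^ (-(γ / 2)) = ε ^ (-γ) := by
    rw [← Real.rpow_natCast, ← Real.rpow_mul hε.le]
    congr 1
    push_cast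
    ring
  rw [h2]
  have h3 := mul_le_mul_of_nonneg_left (hC (ε⁻¹ • u)) (Real.rpow_nonneg hε.le (-γ))
  linarith

/-- the lower bound of the mollification -/
theorem mol_lower {ρ : E d → ℝ} (hρ : Moll 1 ρ) {γ : ℝ} (hγ0 : 0 ≤ γ) (hγ : γ < d) {C : ℝ}
    (hC : ∀ u : E d, KK ρ γ u ≤ C * (‖u‖ ^ 2 + 1) ^ (-(γ / 2)))
    {s : E d → Al d 2} {p₀ : E d} {R B c : ℝ} (hB : 0 ≤ B)
    (hs : ContDiffOn ℝ ∞ s (Metric.ball p₀ R \ {p₀}))
    (hb : ∀ p ∈ Metric.ball p₀ R \ {p₀}, ‖s p‖ ≤ B * ‖p - p₀‖ ^ (-γ))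
    {Js : E d → (E d →L[ℝ] E d)}
    (hpos : ∀ p ∈ Metric.ball p₀ R \ {p₀}, ∀ v : E d, c * ‖v‖ ^ 2 ≤ s p ![v, Js p v])
    {ε : ℝ} (hε : 0 < ε) {p : E d} (hp : Metric.closedBall p ε ⊆ Metric.ball p₀ R) {τ : ℝ}
    (hτ0 : 0 ≤ τ) (hτ : ∀ q ∈ Metric.closedBall p ε, ‖Js p - Js q‖ ≤ τ) (v : E d) :
    (c - B * τ * (C * (‖p - p₀‖ ^ 2 + ε ^ 2) ^ (-(γ / 2)))) * ‖v‖ ^ 2 ≤
      mol (sc ρ ε) s p ![v, Js p v] := by
  have hM := sc_moll hρ hε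
  have hΦ := cut_integrable hγ0 hγ hs hb
  rw [← mol_cut hM s hp, mol_eval hM hΦ]
  have hI := sc_KK_integrable hρ hγ0 hγ hε (p - p₀)
  have h1 : ∫ y, (sc ρ ε y * (c * ‖v‖ ^ 2) -
      (B * τ * ‖v‖ ^ 2) * (sc ρ ε y * ‖p - p₀ + y‖ ^ (-γ))) =
      (c - B * τ * ∫ y, sc ρ ε y * ‖p - p₀ + y‖ ^ (-γ)) * ‖v‖ ^ 2 := by
    rw [integral_sub ((moll_int hM).mul_const _) (hI.const_mul _), integral_mul_const, hM.int,
      integral_const_mul]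
    ring
  have h2 : (c - B * τ * (C * (‖p - p₀‖ ^ 2 + ε ^ 2) ^ (-(γ / 2)))) * ‖v‖ ^ 2 ≤
      (c - B * τ * ∫ y, sc ρ ε y * ‖p - p₀ + y‖ ^ (-γ)) * ‖v‖ ^ 2 := by
    refine mul_le_mul_of_nonneg_right ?_ (sq_nonneg _)
    have h3 := mul_le_mul_of_nonneg_left (sc_KK_bound (γ := γ) hC hε (p - p₀))
      (mul_nonneg hB hτ0)
    linarith
  refine h2.trans ?_
  rw [← h1]
  have hint : Integrable (fun y => sc ρ ε y * cutS s (Metric.ball p₀ R) (p + y) ![v, Js p v]) :=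
    (ContinuousAlternatingMap.apply ℝ (E d) ℝ ![v, Js p v]).integrable_comp
      (mol_integrable hM hΦ p)
  refine integral_mono_ae (((moll_int hM).mul_const _).sub (hI.const_mul _)) hint ?_
  have hae : ∀ᵐ y : E d, p + y ≠ p₀ := by
    have := (measurePreserving_add_left (volume : Measure (E d)) p).quasiMeasurePreserving.ae
      (ae_ne_pt hγ0 hγ p₀)
    exact this
  filter_upwards [hae] with y hy
  by_cases hyε : ε ≤ ‖y‖
  · rw [hM.supp y hyε]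
    simp
  rw [not_le] at hyε
  have hq : p + y ∈ Metric.closedBall p ε := by
    rw [Metric.mem_closedBall, dist_eq_norm, add_sub_cancel_left]
    exact hyε.le
  have hqR := hp hq
  have hqP : p + y ∈ Metric.ball p₀ R \ {p₀} := ⟨hqR, hy⟩
  unfold cutS
  rw [indicator_of_mem hqR]
  have t1 : s (p + y) ![v, Js p v] = s (p + y) ![v, Js (p + y) v] +
      s (p + y) ![v, (Js p - Js (p + y)) v] := by
    rw [_root_.sub_apply, ← lR_apply, ← lR_apply, ← lR_apply, ← map_add]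
    congr 1
    abel
  have t2 := hpos _ hqP v
  have t3 := two_bound (s (p + y)) v ((Js p - Js (p + y)) v)
  have t4 : ‖(Js p - Js (p + y)) v‖ ≤ τ * ‖v‖ :=
    ((Js p - Js (p + y)).le_opNorm v).trans
      (mul_le_mul_of_nonneg_right (hτ _ hq) (norm_nonneg _))
  have t5 := hb _ hqP
  have e1 : p + y - p₀ = p - p₀ + y := by abel
  rw [e1] at t5
  have hx0 : 0 ≤ ‖p - p₀ + y‖ ^ (-γ) := Real.rpow_nonneg (norm_nonneg _) _
  have t6 : ‖s (p + y)‖ * (‖v‖ * ‖(Js p - Js (p + y)) v‖) ≤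
      (B * ‖p - p₀ + y‖ ^ (-γ)) * (‖v‖ * (τ * ‖v‖)) :=
    mul_le_mul t5 (mul_le_mul_of_nonneg_left t4 (norm_nonneg _)) (by positivity) (by positivity)
  have t7 : (c * ‖v‖ ^ 2) - (B * τ * ‖v‖ ^ 2) * ‖p - p₀ + y‖ ^ (-γ) ≤
      s (p + y) ![v, Js p v] := by
    rw [t1]
    have := neg_abs_le (s (p + y) ![v, (Js p - Js (p + y)) v])
    nlinarith
  have t8 := mul_le_mul_of_nonneg_left t7 (hM.nonneg y)
  linarith

end Pool.Agent.V7H86.SG
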