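import Mathlib
import Pool.Agent.V7H86.SG.Mo2

/-!
# The compensating potential
-/

set_option autoImplicit false

open Set Filter Topology MeasureTheory
open scoped Manifold ContDiff Convolution

noncomputable section

namespace Pool.Agent.V7H86.SG

open Pool.Agent.Y501.SY Pool.Agent.Y515.SY

variable {d : ℕ}

theorem ext2 {s : E d → Al d 1} {q : E d} (h : DifferentiableAt ℝ s q) (a b : E d) :
    extDeriv s q ![a, b] = fderiv ℝ (fun x => s x ![b]) q a - fderiv ℝ (fun x => s x ![a]) q b := by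
  rw [extDeriv_apply h, Fin.sum_univ_two]
  have e0 : (0 : Fin 2).removeNth ![a, b] = ![b] := by
    ext i
    fin_cases i
    rfl
  have e1 : (1 : Fin 2).removeNth ![a, b] = ![a] := by
    ext i
    fin_cases i
    rfl
  rw [e0, e1]
  simp
  ring

/-- the metric invariant under `J₀` -/
def gg (J₀ : E d →L[ℝ] E d) (a b : E d) : ℝ := inner ℝ a b + inner ℝ (J₀ a) (J₀ b)

/-- the constant comparing the metrics -/
def LA (J₀ : E d →L[ℝ] E d) : ℝ := 1 + ‖J₀‖ ^ 2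

theorem one_le_LA (J₀ : E d →L[ℝ] E d) : 1 ≤ LA J₀ := by
  unfold LA
  have := sq_nonneg ‖J₀‖
  linarith

section

variable {J₀ : E d →L[ℝ] E d}

theorem gg_symm (a b : E d) : gg J₀ a b = gg J₀ b a := by
  unfold gg
  rw [real_inner_comm, real_inner_comm (J₀ a)]

theorem gg_add_left (a a' b : E d) : gg J₀ (a + a') b = gg J₀ a b + gg J₀ a' b := by
  unfold gg
  rw [map_add, inner_add_left, inner_add_left]
  ring

theorem gg_smul_left (t : ℝ) (a b : E d) : gg J₀ (t • a) b = t * gg J₀ a b := by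
  unfold gg
  rw [map_smul, real_inner_smul_left, real_inner_smul_left]
  ring

theorem gg_add_right (a b b' : E d) : gg J₀ a (b + b') = gg J₀ a b + gg J₀ a b' := by
  rw [gg_symm, gg_add_left, gg_symm b, gg_symm b']

theorem gg_smul_right (t : ℝ) (a b : E d) : gg J₀ a (t • b) = t * gg J₀ a b := by
  rw [gg_symm, gg_smul_left, gg_symm b]

theorem gg_inv (h : ∀ v, J₀ (J₀ v) = -v) (a b : E d) : gg J₀ (J₀ a) (J₀ b) = gg J₀ a b := by
  unfold gg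
  rw [h, h, inner_neg_neg]
  ring

theorem gg_neg_left (a b : E d) : gg J₀ (-a) b = -gg J₀ a b := by
  have := gg_smul_left (J₀ := J₀) (-1) a b
  rw [neg_one_smul] at this
  linarith

theorem gg_anti (h : ∀ v, J₀ (J₀ v) = -v) (a b : E d) : gg J₀ (J₀ a) b = -gg J₀ a (J₀ b) := by
  rw [← gg_inv h (J₀ a) b, h, gg_neg_left]

theorem gg_self_J (h : ∀ v, J₀ (J₀ v) = -v) (a : E d) : gg J₀ a (J₀ a) = 0 := by
  have h1 := gg_anti h a a
  rw [gg_symm] at h1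
  linarith

theorem gg_lower (a : E d) : ‖a‖ ^ 2 ≤ gg J₀ a a := by
  unfold gg
  rw [real_inner_self_eq_norm_sq, real_inner_self_eq_norm_sq]
  have := sq_nonneg ‖J₀ a‖
  linarith

theorem gg_nonneg (a : E d) : 0 ≤ gg J₀ a a := (sq_nonneg _).trans (gg_lower a)

theorem gg_upper (a b : E d) : |gg J₀ a b| ≤ LA J₀ * (‖a‖ * ‖b‖) := by
  unfold gg LA
  have h1 := abs_real_inner_le_norm a b
  have h2 := abs_real_inner_le_norm (J₀ a) (J₀ b)
  have h3 := mul_le_mul (J₀.le_opNorm a) (J₀.le_opNorm b) (norm_nonneg _) (by positivity)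
  refine (abs_add_le _ _).trans ?_
  nlinarith

theorem gg_upper_self (a : E d) : gg J₀ a a ≤ LA J₀ * ‖a‖ ^ 2 := by
  have := gg_upper (J₀ := J₀) a a
  have h2 := le_abs_self (gg J₀ a a)
  nlinarith

/-- Bessel's inequality -/
theorem gg_bessel (h : ∀ v, J₀ (J₀ v) = -v) (z a : E d) :
    gg J₀ z a ^ 2 + gg J₀ (J₀ z) a ^ 2 ≤ gg J₀ z z * gg J₀ a a := by
  obtain ⟨N, hN⟩ : ∃ N, N = gg J₀ z z := ⟨_, rfl⟩
  obtain ⟨x, hx⟩ : ∃ x, x = gg J₀ z a := ⟨_, rfl⟩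
  obtain ⟨y, hy⟩ : ∃ y, y = gg J₀ (J₀ z) a := ⟨_, rfl⟩
  rw [← hN, ← hx, ← hy]
  have hN0 : 0 ≤ N := by rw [hN]; exact gg_nonneg z
  rcases hN0.eq_or_lt with h0 | h0
  · have hz : z = 0 := by
      have := gg_lower (J₀ := J₀) z
      rw [← hN, ← h0] at this
      have h2 : ‖z‖ = 0 := by nlinarith [norm_nonneg z, sq_nonneg ‖z‖]
      exact norm_eq_zero.1 h2
    have hx0 : x = 0 := by
      rw [hx, hz]
      unfold gg
      simp
    have hy0 : y = 0 := by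
      rw [hy, hz]
      unfold gg
      simp
    rw [hx0, hy0, ← h0]
    simp
  · have h1 := gg_nonneg (J₀ := J₀) (N • a + ((-x) • z + (-y) • J₀ z))
    have e1 : gg J₀ (J₀ z) (J₀ z) = N := by rw [gg_inv h, hN]
    have e2 : gg J₀ z (J₀ z) = 0 := gg_self_J h z
    have e3 : gg J₀ (J₀ z) z = 0 := by rw [gg_symm]; exact e2
    have e4 : gg J₀ a z = x := by rw [gg_symm, hx]
    have e5 : gg J₀ a (J₀ z) = y := by rw [gg_symm, hy]
    simp only [gg_add_left, gg_add_right, gg_smul_left, gg_smul_right] at h1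
    rw [e1, e2, e3, e4, e5, ← hN, ← hx, ← hy] at h1
    have h2 : 0 ≤ N * (N * gg J₀ a a - (x ^ 2 + y ^ 2)) := by linarith
    have h3 := nonneg_of_mul_nonneg_right h2 h0
    linarith

theorem gg_cs (h : ∀ v, J₀ (J₀ v) = -v) (z a : E d) :
    |gg J₀ z a| ≤ Real.sqrt (gg J₀ z z) * Real.sqrt (gg J₀ a a) := by
  rw [← Real.sqrt_mul (gg_nonneg z)]
  apply Real.abs_le_sqrt
  have := gg_bessel h z a
  have := sq_nonneg (gg J₀ (J₀ z) a)
  linarith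

/-- the potential, with centre `p₀` -/
def lamL (J₀ : E d →L[ℝ] E d) (z : E d) : E d →L[ℝ] ℝ :=
  innerSL ℝ (J₀ z) + (innerSL ℝ (J₀ (J₀ z))).comp J₀

theorem lamL_apply (z b : E d) : lamL J₀ z b = gg J₀ (J₀ z) b := rfl

theorem lamL_contDiff : ContDiff ℝ ∞ (lamL J₀) := by
  have h1 : ContDiff ℝ ∞ (fun z : E d => innerSL ℝ (J₀ z)) :=
    (innerSL ℝ).contDiff.comp J₀.contDiff
  have h2 : ContDiff ℝ ∞ (fun z : E d => innerSL ℝ (J₀ (J₀ z))) :=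
    (innerSL ℝ).contDiff.comp (J₀.contDiff.comp J₀.contDiff)
  exact h1.add (h2.clm_comp contDiff_const)

/-- the factor -/
def hf (A κ ε : ℝ) (t : ℝ) : ℝ := A * (t + ε ^ 2) ^ (κ - 1)

/-- the potential -/
def lam (J₀ : E d →L[ℝ] E d) (p₀ : E d) (A κ ε : ℝ) (p : E d) : Al d 1 :=
  hf A κ ε (gg J₀ (p - p₀) (p - p₀)) • one (lamL J₀ (p - p₀))

theorem lam_apply (p₀ : E d) (A κ ε : ℝ) (p b : E d) :
    lam J₀ p₀ A κ ε p ![b] =
      hf A κ ε (gg J₀ (p - p₀) (p - p₀)) * gg J₀ (J₀ (p - p₀)) b := rfl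

theorem gg_contDiff (p₀ : E d) :
    ContDiff ℝ ∞ (fun p => gg J₀ (p - p₀) (p - p₀)) := by
  unfold gg
  have h1 : ContDiff ℝ ∞ (fun p : E d => p - p₀) := contDiff_id.sub contDiff_const
  have h2 : ContDiff ℝ ∞ (fun p : E d => J₀ (p - p₀)) := J₀.contDiff.comp h1
  exact (h1.inner ℝ h1).add (h2.inner ℝ h2)

theorem one_contDiff {f : E d → (E d →L[ℝ] ℝ)} (hf : ContDiff ℝ ∞ f) :
    ContDiff ℝ ∞ (fun p => one (V := E d) (f p)) := by
  have h1 : ContDiff ℝ ∞ (fun a : E d →L[ℝ] ℝ => one (V := E d) a) := by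
    let L : (E d →L[ℝ] ℝ) →ₗ[ℝ] Al d 1 :=
      { toFun := fun a => one (V := E d) a
        map_add' := fun a b => by
          apply ContinuousAlternatingMap.ext
          intro v
          rfl
        map_smul' := fun c a => by
          apply ContinuousAlternatingMap.ext
          intro v
          rfl }
    exact (LinearMap.toContinuousLinearMap L).contDiff
  exact h1.comp hf

theorem lam_contDiff (p₀ : E d) (A κ : ℝ) {ε : ℝ} (hε : 0 < ε) :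
    ContDiff ℝ ∞ (lam J₀ p₀ A κ ε) := by
  unfold lam hf
  have h1 : ContDiff ℝ ∞ (fun p => (gg J₀ (p - p₀) (p - p₀) + ε ^ 2) ^ (κ - 1)) := by
    refine ContDiff.rpow_const_of_ne ((gg_contDiff p₀).add contDiff_const) fun x => ?_
    have := gg_nonneg (J₀ := J₀) (x - p₀)
    positivity
  have h2 : ContDiff ℝ ∞ (fun p : E d => lamL J₀ (p - p₀)) :=
    lamL_contDiff.comp (contDiff_id.sub contDiff_const)
  exact (contDiff_const.mul h1).smul (one_contDiff h2)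

theorem lam_line (p₀ : E d) (A κ : ℝ) {ε : ℝ} (hε : 0 < ε) (p a b : E d) :
    fderiv ℝ (fun x => lam J₀ p₀ A κ ε x ![b]) p a =
      A * (κ - 1) * (gg J₀ (p - p₀) (p - p₀) + ε ^ 2) ^ (κ - 2) * (2 * gg J₀ (p - p₀) a) *
        gg J₀ (J₀ (p - p₀)) b +
      hf A κ ε (gg J₀ (p - p₀) (p - p₀)) * gg J₀ (J₀ a) b := by
  have hd : DifferentiableAt ℝ (fun x => lam J₀ p₀ A κ ε x ![b]) p := by
    have h1 : ContDiff ℝ ∞ (fun x => lam J₀ p₀ A κ ε x ![b]) :=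
      (ContinuousAlternatingMap.apply ℝ (E d) ℝ ![b]).contDiff.comp (lam_contDiff p₀ A κ hε)
    exact h1.contDiffAt.differentiableAt (by simp)
  have h2 := (hd.hasFDerivAt.hasLineDerivAt a)
  unfold HasLineDerivAt at h2
  obtain ⟨z, hz⟩ : ∃ z, z = p - p₀ := ⟨_, rfl⟩
  rw [← hz]
  have e1 : (fun t : ℝ => lam J₀ p₀ A κ ε (p + t • a) ![b]) =
      fun t : ℝ => (A * (gg J₀ z z + (2 * gg J₀ z a) * t + gg J₀ a a * t ^ 2 + ε ^ 2) ^ (κ - 1)) *
        (gg J₀ (J₀ z) b + t * gg J₀ (J₀ a) b) := by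
    ext t
    have e2 : p + t • a - p₀ = z + t • a := by rw [hz]; abel
    rw [lam_apply, e2]
    unfold hf
    rw [map_add, map_smul, gg_add_left (J₀ z), gg_smul_left]
    congr 4
    rw [gg_add_left, gg_add_right, gg_add_right, gg_smul_left, gg_smul_left, gg_smul_right,
      gg_smul_right, gg_symm a z]
    ring
  rw [e1] at h2
  have hT : 0 < gg J₀ z z + ε ^ 2 := by
    have := gg_nonneg (J₀ := J₀) z
    positivity
  have h3 : HasDerivAt (fun t : ℝ => gg J₀ z z + (2 * gg J₀ z a) * t + gg J₀ a a * t ^ 2 + ε ^ 2)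
      (2 * gg J₀ z a) 0 := by
    have k1 : HasDerivAt (fun t : ℝ => (2 * gg J₀ z a) * t) ((2 * gg J₀ z a) * 1) 0 :=
      (hasDerivAt_id (0 : ℝ)).const_mul _
    have k2 : HasDerivAt (fun t : ℝ => gg J₀ a a * t ^ 2)
        (gg J₀ a a * ((2 : ℕ) * (0 : ℝ) ^ (2 - 1))) 0 :=
      (hasDerivAt_pow 2 (0 : ℝ)).const_mul _
    have k3 := ((k1.const_add (gg J₀ z z)).add k2).add_const (ε ^ 2)
    exact k3.congr_deriv (by simp)
  have h4 : HasDerivAt (fun t : ℝ =>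
      (gg J₀ z z + (2 * gg J₀ z a) * t + gg J₀ a a * t ^ 2 + ε ^ 2) ^ (κ - 1))
      (2 * gg J₀ z a * (κ - 1) * (gg J₀ z z + ε ^ 2) ^ (κ - 1 - 1)) 0 := by
    have k1 := h3.rpow_const (p := κ - 1) (Or.inl (by simp; exact hT.ne'))
    convert k1 using 1
    simp
  have h5 : HasDerivAt (fun t : ℝ => gg J₀ (J₀ z) b + t * gg J₀ (J₀ a) b)
      (gg J₀ (J₀ a) b) 0 := by
    have k1 := ((hasDerivAt_id (0 : ℝ)).mul_const (gg J₀ (J₀ a) b)).const_add (gg J₀ (J₀ z) b)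
    exact k1.congr_deriv (by simp)
  have h6 := (h4.const_mul A).mul h5
  have h7 := h2.unique h6
  rw [h7]
  unfold hf
  have e3 : κ - 1 - 1 = κ - 2 := by ring
  have e4 : gg J₀ z z + 2 * gg J₀ z a * 0 + gg J₀ a a * 0 ^ 2 + ε ^ 2 = gg J₀ z z + ε ^ 2 := by
    ring
  rw [e3, e4]
  ring

/-- the exterior derivative of the potential -/
theorem lam_ext (p₀ : E d) (A κ : ℝ) {ε : ℝ} (hε : 0 < ε) (p a b : E d) :
    extDeriv (lam J₀ p₀ A κ ε) p ![a, b] =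
      2 * (A * (κ - 1) * (gg J₀ (p - p₀) (p - p₀) + ε ^ 2) ^ (κ - 2)) *
        (gg J₀ (p - p₀) a * gg J₀ (J₀ (p - p₀)) b - gg J₀ (p - p₀) b * gg J₀ (J₀ (p - p₀)) a) +
      hf A κ ε (gg J₀ (p - p₀) (p - p₀)) * (gg J₀ (J₀ a) b - gg J₀ (J₀ b) a) := by
  rw [ext2 ((lam_contDiff p₀ A κ hε).contDiffAt.differentiableAt (by simp)), lam_line p₀ A κ hε,
    lam_line p₀ A κ hε]
  ring

theorem hf_step {κ ε t : ℝ} (hε : 0 < ε) (ht : 0 ≤ t) :
    (t + ε ^ 2) ^ (κ - 1) = (t + ε ^ 2) ^ (κ - 2) * (t + ε ^ 2) := by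
  have hT : 0 < t + ε ^ 2 := by positivity
  have : κ - 1 = κ - 2 + 1 := by ring
  rw [this, Real.rpow_add_one hT.ne']

/-- positivity of the exterior derivative of the potential -/
theorem lam_pos (h : ∀ v, J₀ (J₀ v) = -v) (p₀ : E d) {A κ ε : ℝ} (hA : 0 ≤ A) (hκ1 : κ ≤ 1)
    (hε : 0 < ε) (p a : E d) :
    2 * A * κ * (gg J₀ (p - p₀) (p - p₀) + ε ^ 2) ^ (κ - 1) * gg J₀ a a ≤
      extDeriv (lam J₀ p₀ A κ ε) p ![a, J₀ a] := by
  rw [lam_ext p₀ A κ hε]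
  obtain ⟨z, hz⟩ : ∃ z, z = p - p₀ := ⟨_, rfl⟩
  rw [← hz]
  have e1 : gg J₀ (J₀ z) (J₀ a) = gg J₀ z a := gg_inv h z a
  have e2 : gg J₀ z (J₀ a) = -gg J₀ (J₀ z) a := by rw [gg_anti h]; ring
  have e3 : gg J₀ (J₀ a) (J₀ a) = gg J₀ a a := gg_inv h a a
  have e4 : gg J₀ (J₀ (J₀ a)) a = -gg J₀ a a := by rw [h, gg_neg_left]
  rw [e1, e2, e3, e4]
  have hu := gg_nonneg (J₀ := J₀) z
  have ha := gg_nonneg (J₀ := J₀) a
  have hb := gg_bessel h z a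
  unfold hf
  rw [hf_step hε hu]
  generalize gg J₀ z z = u at *
  generalize gg J₀ a a = g at *
  generalize gg J₀ z a = x at *
  generalize gg J₀ (J₀ z) a = y at *
  have hT : 0 < u + ε ^ 2 := by positivity
  have hP : 0 < (u + ε ^ 2) ^ (κ - 2) := Real.rpow_pos_of_pos hT _
  have h1 : 2 * (A * (κ - 1) * (u + ε ^ 2) ^ (κ - 2)) * (x * x - -y * y) +
      A * ((u + ε ^ 2) ^ (κ - 2) * (u + ε ^ 2)) * (g - -g) =
      (2 * A * (u + ε ^ 2) ^ (κ - 2)) * ((κ - 1) * (x ^ 2 + y ^ 2) + (u + ε ^ 2) * g) := by ring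
  have h2 : 2 * A * κ * ((u + ε ^ 2) ^ (κ - 2) * (u + ε ^ 2)) * g =
      (2 * A * (u + ε ^ 2) ^ (κ - 2)) * (κ * (u + ε ^ 2) * g) := by ring
  rw [h1, h2]
  refine mul_le_mul_of_nonneg_left ?_ (by positivity)
  have h3 : (κ - 1) * (u * g) ≤ (κ - 1) * (x ^ 2 + y ^ 2) :=
    mul_le_mul_of_nonpos_left hb (by linarith)
  have h4 : 0 ≤ (1 - κ) * ε ^ 2 * g := by
    have : 0 ≤ 1 - κ := by linarith
    positivity
  nlinarith

/-- bound for the exterior derivative of the potential -/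
theorem lam_bd (h : ∀ v, J₀ (J₀ v) = -v) (p₀ : E d) {A κ ε : ℝ} (hA : 0 ≤ A) (hκ0 : 0 ≤ κ)
    (hκ1 : κ ≤ 1) (hε : 0 < ε) (p a b : E d) :
    |extDeriv (lam J₀ p₀ A κ ε) p ![a, b]| ≤
      6 * A * LA J₀ * (gg J₀ (p - p₀) (p - p₀) + ε ^ 2) ^ (κ - 1) * (‖a‖ * ‖b‖) := by
  rw [lam_ext p₀ A κ hε]
  obtain ⟨z, hz⟩ : ∃ z, z = p - p₀ := ⟨_, rfl⟩
  rw [← hz]
  have hu := gg_nonneg (J₀ := J₀) z
  have hL := one_le_LA J₀
  have hsq : ∀ x : E d, Real.sqrt (gg J₀ x x) ≤ Real.sqrt (LA J₀) * ‖x‖ := by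
    intro x
    refine (Real.sqrt_le_sqrt (gg_upper_self x)).trans (le_of_eq ?_)
    rw [Real.sqrt_mul (by linarith), Real.sqrt_sq (norm_nonneg _)]
  have hab : Real.sqrt (gg J₀ a a) * Real.sqrt (gg J₀ b b) ≤ LA J₀ * (‖a‖ * ‖b‖) := by
    refine (mul_le_mul (hsq a) (hsq b) (Real.sqrt_nonneg _) (by positivity)).trans (le_of_eq ?_)
    have := Real.mul_self_sqrt (show 0 ≤ LA J₀ by linarith)
    calc Real.sqrt (LA J₀) * ‖a‖ * (Real.sqrt (LA J₀) * ‖b‖) =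
        (Real.sqrt (LA J₀) * Real.sqrt (LA J₀)) * (‖a‖ * ‖b‖) := by ring
      _ = _ := by rw [this]
  have hzz : ∀ x y : E d, |gg J₀ z x * gg J₀ (J₀ z) y| ≤
      gg J₀ z z * (Real.sqrt (gg J₀ x x) * Real.sqrt (gg J₀ y y)) := by
    intro x y
    rw [abs_mul]
    have k1 := gg_cs h z x
    have k2 := gg_cs h (J₀ z) y
    rw [gg_inv h] at k2
    refine (mul_le_mul k1 k2 (abs_nonneg _) (by positivity)).trans (le_of_eq ?_)
    have := Real.mul_self_sqrt hu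
    calc _ = (Real.sqrt (gg J₀ z z) * Real.sqrt (gg J₀ z z)) *
        (Real.sqrt (gg J₀ x x) * Real.sqrt (gg J₀ y y)) := by ring
      _ = _ := by rw [this]
  have t1 : |gg J₀ z a * gg J₀ (J₀ z) b - gg J₀ z b * gg J₀ (J₀ z) a| ≤
      2 * (gg J₀ z z * (LA J₀ * (‖a‖ * ‖b‖))) := by
    refine (abs_sub _ _).trans ?_
    have k1 := (hzz a b).trans (mul_le_mul_of_nonneg_left hab hu)
    have k2 := hzz b a
    rw [mul_comm (Real.sqrt (gg J₀ b b))] at k2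
    have k3 := k2.trans (mul_le_mul_of_nonneg_left hab hu)
    linarith
  have hJs : ∀ x y : E d, |gg J₀ (J₀ x) y| ≤
      Real.sqrt (gg J₀ x x) * Real.sqrt (gg J₀ y y) := by
    intro x y
    have k1 := gg_cs h (J₀ x) y
    rwa [gg_inv h] at k1
  have t2 : |gg J₀ (J₀ a) b - gg J₀ (J₀ b) a| ≤ 2 * (LA J₀ * (‖a‖ * ‖b‖)) := by
    refine (abs_sub _ _).trans ?_
    have k1 := (hJs a b).trans hab
    have k2 := hJs b a
    rw [mul_comm] at k2
    have k3 := k2.trans hab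
    linarith
  unfold hf
  rw [hf_step hε hu]
  have hT : 0 < gg J₀ z z + ε ^ 2 := by positivity
  have hP : 0 < (gg J₀ z z + ε ^ 2) ^ (κ - 2) := Real.rpow_pos_of_pos hT _
  generalize (gg J₀ z z + ε ^ 2) ^ (κ - 2) = P at *
  obtain ⟨W, hW⟩ : ∃ W, W = LA J₀ * (‖a‖ * ‖b‖) := ⟨_, rfl⟩
  have hW0 : 0 ≤ W := by rw [hW]; positivity
  rw [← hW] at t1 t2
  refine (abs_add_le _ _).trans ?_
  rw [abs_mul, abs_mul (A * (P * (gg J₀ z z + ε ^ 2)))]
  have c1 : |2 * (A * (κ - 1) * P)| ≤ 2 * A * P := by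
    rw [abs_mul, abs_mul, abs_mul, abs_of_pos hP, abs_of_nonneg hA,
      abs_of_nonneg (by norm_num : (0 : ℝ) ≤ 2)]
    have : |κ - 1| ≤ 1 := by rw [abs_le]; constructor <;> linarith
    have h3 : A * |κ - 1| * P ≤ A * 1 * P := by gcongr
    linarith
  have c2 : |A * (P * (gg J₀ z z + ε ^ 2))| = A * P * (gg J₀ z z + ε ^ 2) := by
    rw [abs_of_nonneg (by positivity)]
    ring
  rw [c2]
  have d1 := mul_le_mul c1 t1 (abs_nonneg _) (by positivity)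
  have d2 := mul_le_mul_of_nonneg_left t2 (show 0 ≤ A * P * (gg J₀ z z + ε ^ 2) by positivity)
  have d3 : 2 * A * P * (2 * (gg J₀ z z * W)) ≤ 4 * A * P * (gg J₀ z z + ε ^ 2) * W := by
    have : 0 ≤ 4 * A * P * ε ^ 2 * W := by positivity
    nlinarith
  have d4 : 6 * A * LA J₀ * (P * (gg J₀ z z + ε ^ 2)) * (‖a‖ * ‖b‖) =
      6 * A * P * (gg J₀ z z + ε ^ 2) * W := by rw [hW]; ring
  rw [d4]
  linarith

/-- positivity with respect to a nearby endomorphism -/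
theorem lam_pos' (h : ∀ v, J₀ (J₀ v) = -v) (p₀ : E d) {A κ ε : ℝ} (hA : 0 ≤ A) (hκ0 : 0 ≤ κ)
    (hκ1 : κ ≤ 1) (hε : 0 < ε) {T : E d →L[ℝ] E d} (hT : 6 * LA J₀ * ‖T - J₀‖ ≤ κ) (p a : E d) :
    A * κ * (gg J₀ (p - p₀) (p - p₀) + ε ^ 2) ^ (κ - 1) * ‖a‖ ^ 2 ≤
      extDeriv (lam J₀ p₀ A κ ε) p ![a, T a] := by
  have h1 := lam_pos h p₀ hA hκ1 hε p a
  have h2 := lam_bd h p₀ hA hκ0 hκ1 hε p a ((T - J₀) a)
  have e1 : extDeriv (lam J₀ p₀ A κ ε) p ![a, T a] =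
      extDeriv (lam J₀ p₀ A κ ε) p ![a, J₀ a] +
      extDeriv (lam J₀ p₀ A κ ε) p ![a, (T - J₀) a] := by
    rw [_root_.sub_apply, ← lR_apply, ← lR_apply, ← lR_apply, ← map_add]
    congr 1
    abel
  rw [e1]
  have hu := gg_nonneg (J₀ := J₀) (p - p₀)
  have hP : 0 ≤ (gg J₀ (p - p₀) (p - p₀) + ε ^ 2) ^ (κ - 1) :=
    Real.rpow_nonneg (by positivity) _
  generalize (gg J₀ (p - p₀) (p - p₀) + ε ^ 2) ^ (κ - 1) = P at *
  have h3 : ‖(T - J₀) a‖ ≤ ‖T - J₀‖ * ‖a‖ := (T - J₀).le_opNorm a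
  have hL := one_le_LA J₀
  have h4 : 6 * A * LA J₀ * P * (‖a‖ * ‖(T - J₀) a‖) ≤ A * κ * P * ‖a‖ ^ 2 := by
    calc 6 * A * LA J₀ * P * (‖a‖ * ‖(T - J₀) a‖)
        ≤ 6 * A * LA J₀ * P * (‖a‖ * (‖T - J₀‖ * ‖a‖)) := by gcongr
      _ = (A * P * ‖a‖ ^ 2) * (6 * LA J₀ * ‖T - J₀‖) := by ring
      _ ≤ (A * P * ‖a‖ ^ 2) * κ := mul_le_mul_of_nonneg_left hT (by positivity)
      _ = _ := by ring
  have h5 := neg_abs_le (extDeriv (lam J₀ p₀ A κ ε) p ![a, (T - J₀) a])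
  have h6 := mul_le_mul_of_nonneg_left (gg_lower (J₀ := J₀) a)
    (show 0 ≤ 2 * A * κ * P by positivity)
  linarith

end

end Pool.Agent.V7H86.SG
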