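import Mathlib
import Pool.Agent.V7H86.SG.Co
import Pool.Agent.Y484.SY.Gen

/-!
# Gluing across a shell
-/

set_option autoImplicit false

open Set Filter Topology MeasureTheory
open scoped Manifold ContDiff Convolution

noncomputable section

namespace Pool.Agent.V7H86.SG

open Pool.Agent.Y501.SY Pool.Agent.Y515.SY

variable {d : ℕ}

theorem ext_contDiffAt {k : ℕ} {f : E d → Al d k} {x : E d} (h : ContDiffAt ℝ ∞ f x) :
    ContDiffAt ℝ ∞ (extDeriv f) x := by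
  have h1 : ContDiffAt ℝ ∞ (fderiv ℝ f) x := h.fderiv_right (m := ∞) (by simp)
  exact (ContinuousAlternatingMap.alternatizeUncurryFinCLM ℝ (E d) ℝ).contDiff.contDiffAt.comp x
    h1

theorem ext_ext {k : ℕ} {f : E d → Al d k} {x : E d} (h : ContDiffAt ℝ ∞ f x) :
    extDeriv (extDeriv f) x = 0 :=
  extDeriv_extDeriv_apply (r := ∞) h Pool.Agent.Y484.SY.two_le

theorem smul_ext {χ : E d → ℝ} {α : E d → Al d 1} {p : E d} (hχ : DifferentiableAt ℝ χ p)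
    (hα : DifferentiableAt ℝ α p) (a b : E d) :
    extDeriv (fun x => χ x • α x) p ![a, b] = χ p * extDeriv α p ![a, b] +
      (fderiv ℝ χ p a * α p ![b] - fderiv ℝ χ p b * α p ![a]) := by
  have hev : ∀ v : Fin 1 → E d, DifferentiableAt ℝ (fun x => α x v) p := fun v =>
    (ContinuousAlternatingMap.apply ℝ (E d) ℝ v).differentiableAt.comp p hα
  have h1 : ∀ v : Fin 1 → E d, ∀ u : E d, fderiv ℝ (fun x => (χ x • α x) v) p u =
      χ p * fderiv ℝ (fun x => α x v) p u + fderiv ℝ χ p u * α p v := by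
    intro v u
    have e1 : fderiv ℝ (fun x => (χ x • α x) v) p =
        χ p • fderiv ℝ (fun x => α x v) p + α p v • fderiv ℝ χ p :=
      fderiv_fun_mul hχ (hev v)
    rw [e1]
    change χ p * fderiv ℝ (fun x => α x v) p u + α p v * fderiv ℝ χ p u = _
    ring
  rw [ext2 (s := fun x => χ x • α x) (hχ.smul hα), ext2 hα, h1, h1]
  ring

/-- gluing across a shell -/
theorem glue {s N : E d → Al d 2} {α : E d → Al d 1} {χ : E d → ℝ} {p₀ : E d}
    {r₁ r₂ r₃ r₄ R : ℝ} (h12 : r₁ < r₂) (h34 : r₃ < r₄) (h23 : r₂ ≤ r₃)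
    (h1 : 0 < r₁)
    (hs : ContDiffOn ℝ ∞ s (Metric.ball p₀ R \ {p₀}))
    (hcl : ∀ p ∈ Metric.ball p₀ R \ {p₀}, extDeriv s p = 0)
    (hN : ContDiff ℝ ∞ N) (hNc : ∀ p ∈ Metric.ball p₀ r₂, extDeriv N p = 0)
    (hα : ∀ p, r₁ < ‖p - p₀‖ → ‖p - p₀‖ < r₄ → ContDiffAt ℝ ∞ α p)
    (hαd : ∀ p, r₁ < ‖p - p₀‖ → ‖p - p₀‖ < r₄ → extDeriv α p = N p - s p)
    (hχ : ContDiff ℝ ∞ χ) (hχ1 : ∀ p, ‖p - p₀‖ ≤ r₂ → χ p = 1)
    (hχ0 : ∀ p, r₃ ≤ ‖p - p₀‖ → χ p = 0) :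
    ∃ s' : E d → Al d 2, ContDiffOn ℝ ∞ s' (Metric.ball p₀ R) ∧
      (∀ p ∈ Metric.ball p₀ R, extDeriv s' p = 0) ∧
      (∀ p, r₄ ≤ ‖p - p₀‖ → s' p = s p) ∧
      (∀ p, ‖p - p₀‖ < r₂ → s' p = N p) ∧
      ∀ p, r₂ ≤ ‖p - p₀‖ → ‖p - p₀‖ < r₄ → ∀ a b : E d, s' p ![a, b] =
        (1 - χ p) * s p ![a, b] + χ p * N p ![a, b] +
          (fderiv ℝ χ p a * α p ![b] - fderiv ℝ χ p b * α p ![a]) := by
  classical
  have hnc : Continuous (fun x : E d => ‖x - p₀‖) := by fun_prop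
  have evlt : ∀ {p : E d} {r : ℝ}, ‖p - p₀‖ < r → ∀ᶠ x in 𝓝 p, ‖x - p₀‖ < r := fun h =>
    hnc.continuousAt.eventually_lt_const h
  have evgt : ∀ {p : E d} {r : ℝ}, r < ‖p - p₀‖ → ∀ᶠ x in 𝓝 p, r < ‖x - p₀‖ := fun h =>
    hnc.continuousAt.eventually_const_lt h
  obtain ⟨ξ, hξ⟩ : ∃ ξ : E d → Al d 1, ξ = fun x => χ x • α x := ⟨_, rfl⟩
  -- smoothness of the product
  have hξs : ∀ p, r₁ < ‖p - p₀‖ → ContDiffAt ℝ ∞ ξ p := by
    intro p hp
    by_cases h : ‖p - p₀‖ < r₄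
    · rw [hξ]
      exact hχ.contDiffAt.smul (hα p hp h)
    · rw [not_lt] at h
      have h2 : ξ =ᶠ[𝓝 p] fun _ => 0 := by
        filter_upwards [evgt (lt_of_lt_of_le h34 h)] with x hx
        rw [hξ]
        change χ x • α x = 0
        rw [hχ0 x hx.le, zero_smul]
      exact contDiffAt_const.congr_of_eventuallyEq h2
  have hξ0 : ∀ p, r₄ ≤ ‖p - p₀‖ → extDeriv ξ p = 0 := by
    intro p h
    have h2 : ξ =ᶠ[𝓝 p] fun _ => 0 := by
      filter_upwards [evgt (lt_of_lt_of_le h34 h)] with x hx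
      rw [hξ]
      change χ x • α x = 0
      rw [hχ0 x hx.le, zero_smul]
    rw [h2.extDeriv_eq]
    unfold extDeriv
    rw [fderiv_fun_const]
    exact map_zero (ContinuousAlternatingMap.alternatizeUncurryFinCLM ℝ (E d) ℝ)
  have hsat : ∀ p, r₁ < ‖p - p₀‖ → ‖p - p₀‖ < R → ContDiffAt ℝ ∞ s p := by
    intro p hp hpR
    have hP : IsOpen (Metric.ball p₀ R \ {p₀}) :=
      Metric.isOpen_ball.sdiff isClosed_singleton
    refine hs.contDiffAt (hP.mem_nhds ⟨by rwa [Metric.mem_ball, dist_eq_norm], fun h => ?_⟩)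
    rw [mem_singleton_iff] at h
    rw [h, sub_self, norm_zero] at hp
    linarith
  have hscl : ∀ p, r₁ < ‖p - p₀‖ → ‖p - p₀‖ < R → extDeriv s p = 0 := by
    intro p hp hpR
    refine hcl p ⟨by rwa [Metric.mem_ball, dist_eq_norm], fun h => ?_⟩
    rw [mem_singleton_iff] at h
    rw [h, sub_self, norm_zero] at hp
    linarith
  obtain ⟨F₂, hF₂⟩ : ∃ F₂ : E d → Al d 2, F₂ = fun p => s p + extDeriv ξ p := ⟨_, rfl⟩
  have hF₂s : ∀ p, r₁ < ‖p - p₀‖ → ‖p - p₀‖ < R → ContDiffAt ℝ ∞ F₂ p := by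
    intro p hp hpR
    rw [hF₂]
    exact (hsat p hp hpR).add (ext_contDiffAt (hξs p hp))
  have hF₂c : ∀ p, r₁ < ‖p - p₀‖ → ‖p - p₀‖ < R → extDeriv F₂ p = 0 := by
    intro p hp hpR
    rw [hF₂, extDeriv_fun_add ((hsat p hp hpR).differentiableAt (by simp))
      ((ext_contDiffAt (hξs p hp)).differentiableAt (by simp)), hscl p hp hpR,
      ext_ext (hξs p hp), add_zero]
  have hagree : ∀ p, r₁ < ‖p - p₀‖ → ‖p - p₀‖ < r₂ → F₂ p = N p := by
    intro p hp hp2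
    have h2 : ξ =ᶠ[𝓝 p] α := by
      filter_upwards [evlt hp2] with x hx
      rw [hξ]
      change χ x • α x = α x
      rw [hχ1 x hx.le, one_smul]
    rw [hF₂]
    change s p + extDeriv ξ p = N p
    rw [h2.extDeriv_eq, hαd p hp (by linarith)]
    abel
  obtain ⟨s', hs'⟩ : ∃ s' : E d → Al d 2, s' = fun p => if ‖p - p₀‖ < r₂ then N p else F₂ p :=
    ⟨_, rfl⟩
  have e1 : ∀ p, ‖p - p₀‖ < r₂ → s' p = N p := by
    intro p hp
    rw [hs']
    exact if_pos hp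
  have e2 : ∀ p, r₁ < ‖p - p₀‖ → s' p = F₂ p := by
    intro p hp
    by_cases h : ‖p - p₀‖ < r₂
    · rw [e1 p h, hagree p hp h]
    · rw [hs']
      exact if_neg h
  have g1 : ∀ p, ‖p - p₀‖ < r₂ → s' =ᶠ[𝓝 p] N := fun p hp => by
    filter_upwards [evlt hp] with x hx using e1 x hx
  have g2 : ∀ p, r₁ < ‖p - p₀‖ → s' =ᶠ[𝓝 p] F₂ := fun p hp => by
    filter_upwards [evgt hp] with x hx using e2 x hx
  refine ⟨s', ?_, ?_, ?_, e1, ?_⟩
  · intro p hp
    rw [Metric.mem_ball, dist_eq_norm] at hp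
    refine ContDiffAt.contDiffWithinAt ?_
    by_cases h : ‖p - p₀‖ < r₂
    · exact hN.contDiffAt.congr_of_eventuallyEq (g1 p h)
    · rw [not_lt] at h
      exact (hF₂s p (by linarith) hp).congr_of_eventuallyEq (g2 p (by linarith))
  · intro p hp
    rw [Metric.mem_ball, dist_eq_norm] at hp
    by_cases h : ‖p - p₀‖ < r₂
    · rw [(g1 p h).extDeriv_eq]
      exact hNc p (by rwa [Metric.mem_ball, dist_eq_norm])
    · rw [not_lt] at h
      rw [(g2 p (by linarith)).extDeriv_eq]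
      exact hF₂c p (by linarith) hp
  · intro p hp
    rw [e2 p (by linarith), hF₂]
    change s p + extDeriv ξ p = s p
    rw [hξ0 p hp, add_zero]
  · intro p hp hp4 a b
    have hp1 : r₁ < ‖p - p₀‖ := by linarith
    rw [e2 p hp1, hF₂]
    change s p ![a, b] + extDeriv ξ p ![a, b] = _
    rw [hξ, smul_ext (hχ.contDiffAt.differentiableAt (by simp))
      ((hα p hp1 hp4).differentiableAt (by simp)), hαd p hp1 hp4]
    change s p ![a, b] + (χ p * (N p ![a, b] - s p ![a, b]) + _) = _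
    ring

end Pool.Agent.V7H86.SG
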