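import Mathlib
import Pool.Agent.V7H86.SG.Lo
import Pool.Agent.Y431.SY.HT

/-!
# Removal of an isolated singularity: the local statement
-/

set_option autoImplicit false

open Set Filter Topology MeasureTheory
open scoped Manifold ContDiff Convolution

noncomputable section

namespace Pool.Agent.V7H86.SG

open Pool.Agent.Y501.SY Pool.Agent.Y515.SY

variable {d : ℕ}

theorem comp_ineq {B C κ γ τ m L g T ε : ℝ} (hB : 0 ≤ B) (hC : 0 ≤ C) (hκ0 : 0 < κ)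
    (hκ1 : κ ≤ 1) (hτ : 0 ≤ τ) (hL : 1 ≤ L) (hε : 0 < ε) (hg : 0 < g) (hT1 : T ≤ 1)
    (hTε : ε ^ 2 ≤ T) (hgT : g ≤ L * T) (hm1 : τ ≤ m) (hm2 : τ * ε ^ (2 - 2 * κ - γ) ≤ m) :
    B * τ * (C * T ^ (-(γ / 2))) ≤ (B * C / (κ * L ^ (κ - 1)) * m) * κ * g ^ (κ - 1) := by
  have hT0 : 0 < T := lt_of_lt_of_le (by positivity) hTε
  have hLp : 0 < L ^ (κ - 1) := Real.rpow_pos_of_pos (by linarith) _
  have hm0 : 0 ≤ m := hτ.trans hm1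
  have h1 : (L * T) ^ (κ - 1) ≤ g ^ (κ - 1) :=
    Real.rpow_le_rpow_of_nonpos hg hgT (by linarith)
  rw [Real.mul_rpow (by linarith) hT0.le] at h1
  have h2 : T ^ (-(γ / 2)) = T ^ (κ - 1) * T ^ (1 - κ - γ / 2) := by
    rw [← Real.rpow_add hT0]
    congr 1
    ring
  have h3 : τ * T ^ (1 - κ - γ / 2) ≤ m := by
    by_cases he : 0 ≤ 1 - κ - γ / 2
    · have h4 : T ^ (1 - κ - γ / 2) ≤ 1 := Real.rpow_le_one hT0.le hT1 he
      nlinarith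
    · rw [not_le] at he
      have h4 : T ^ (1 - κ - γ / 2) ≤ (ε ^ 2) ^ (1 - κ - γ / 2) :=
        Real.rpow_le_rpow_of_nonpos (by positivity) hTε he.le
      have h5 : (ε ^ 2) ^ (1 - κ - γ / 2) = ε ^ (2 - 2 * κ - γ) := by
        rw [← Real.rpow_natCast, ← Real.rpow_mul hε.le]
        congr 1
        push_cast
        ring
      rw [h5] at h4
      exact (mul_le_mul_of_nonneg_left h4 hτ).trans hm2
  have hTk : 0 ≤ T ^ (κ - 1) := Real.rpow_nonneg hT0.le _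
  calc B * τ * (C * T ^ (-(γ / 2))) = (B * C * T ^ (κ - 1)) * (τ * T ^ (1 - κ - γ / 2)) := by
        rw [h2]; ring
    _ ≤ (B * C * T ^ (κ - 1)) * m := mul_le_mul_of_nonneg_left h3 (by positivity)
    _ = (B * C / (κ * L ^ (κ - 1)) * m) * κ * (L ^ (κ - 1) * T ^ (κ - 1)) := by
        field_simp
    _ ≤ _ := mul_le_mul_of_nonneg_left h1 (by positivity)

theorem one_app (a : Al d 1) (v : E d) : |a ![v]| ≤ ‖a‖ * ‖v‖ := by
  have := a.le_opNorm ![v]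
  simpa using this

/-- the lower bound of the mollification together with the compensating term -/
theorem N_low {ρ : E d → ℝ} (hρ : Moll 1 ρ) {γ : ℝ} (hγ0 : 0 ≤ γ) (hγ : γ < d) {C : ℝ}
    (hC0 : 0 ≤ C) (hC : ∀ u : E d, KK ρ γ u ≤ C * (‖u‖ ^ 2 + 1) ^ (-(γ / 2)))
    {s : E d → Al d 2} {p₀ : E d} {R B c : ℝ} (hB : 0 ≤ B)
    (hs : ContDiffOn ℝ ∞ s (Metric.ball p₀ R \ {p₀}))
    (hb : ∀ p ∈ Metric.ball p₀ R \ {p₀}, ‖s p‖ ≤ B * ‖p - p₀‖ ^ (-γ))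
    {Js : E d → (E d →L[ℝ] E d)}
    (hpos : ∀ p ∈ Metric.ball p₀ R \ {p₀}, ∀ v : E d, c * ‖v‖ ^ 2 ≤ s p ![v, Js p v])
    {J₀ : E d →L[ℝ] E d} (hJ0 : ∀ v, J₀ (J₀ v) = -v)
    {κ ε τ m : ℝ} (hκ0 : 0 < κ) (hκ1 : κ ≤ 1) (hε : 0 < ε) (hε2 : ε ≤ 1 / 2) (hτ0 : 0 ≤ τ)
    (hm1 : τ ≤ m) (hm2 : τ * ε ^ (2 - 2 * κ - γ) ≤ m)
    {p : E d} (hp : Metric.closedBall p ε ⊆ Metric.ball p₀ R) (hp2 : ‖p - p₀‖ ≤ 1 / 2)
    (hτ : ∀ q ∈ Metric.closedBall p ε, ‖Js p - Js q‖ ≤ τ)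
    (hT : 6 * LA J₀ * ‖Js p - J₀‖ ≤ κ) (v : E d) :
    c * ‖v‖ ^ 2 ≤ mol (sc ρ ε) s p ![v, Js p v] +
      extDeriv (lam J₀ p₀ (B * C / (κ * LA J₀ ^ (κ - 1)) * m) κ ε) p ![v, Js p v] := by
  have hL := one_le_LA J₀
  have hL0 : 0 < LA J₀ := by linarith
  have hm0 : 0 ≤ m := hτ0.trans hm1
  have hA0 : 0 ≤ B * C / (κ * LA J₀ ^ (κ - 1)) * m := by positivity
  have k1 := mol_lower hρ hγ0 hγ hC hB hs hb hpos hε hp hτ0 hτ v
  have k2 := lam_pos' hJ0 p₀ hA0 hκ0.le hκ1 hε hT p v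
  have hgz := gg_nonneg (J₀ := J₀) (p - p₀)
  have hgu := gg_upper_self (J₀ := J₀) (p - p₀)
  have hz0 := norm_nonneg (p - p₀)
  have k3 : B * τ * (C * (‖p - p₀‖ ^ 2 + ε ^ 2) ^ (-(γ / 2))) ≤
      (B * C / (κ * LA J₀ ^ (κ - 1)) * m) * κ *
        (gg J₀ (p - p₀) (p - p₀) + ε ^ 2) ^ (κ - 1) := by
    refine comp_ineq hB hC0 hκ0 hκ1 hτ0 hL hε (by positivity) ?_ ?_ ?_ hm1 hm2
    · have h1 : ‖p - p₀‖ ^ 2 ≤ (1 / 2) ^ 2 := pow_le_pow_left₀ hz0 hp2 2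
      have h2 : ε ^ 2 ≤ (1 / 2) ^ 2 := pow_le_pow_left₀ hε.le hε2 2
      linarith
    · have := sq_nonneg ‖p - p₀‖
      linarith
    · have h1 : ε ^ 2 ≤ LA J₀ * ε ^ 2 := by
        have := sq_nonneg ε
        nlinarith
      linarith
  have k4 := mul_le_mul_of_nonneg_right k3 (sq_nonneg ‖v‖)
  linarith

/-- the bound of the potential on the shell -/
theorem lam_shell {J₀ : E d →L[ℝ] E d} (p₀ : E d) {A κ ε r : ℝ} (hA0 : 0 ≤ A) (hκ1 : κ ≤ 1)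
    (hr : 0 < r) {p : E d} (hp1 : r ≤ ‖p - p₀‖) (hp2 : ‖p - p₀‖ ≤ 1) (w : E d) :
    |lam J₀ p₀ A κ ε p ![w]| ≤ A * ((r ^ 2) ^ (κ - 1) * (LA J₀ * ‖J₀‖)) * ‖w‖ := by
  have hL := one_le_LA J₀
  have hL0 : 0 < LA J₀ := by linarith
  rw [lam_apply, abs_mul]
  have hgz := gg_lower (J₀ := J₀) (p - p₀)
  have hgb := gg_upper (J₀ := J₀) (J₀ (p - p₀)) w
  have hJz : ‖J₀ (p - p₀)‖ ≤ ‖J₀‖ := by
    refine (J₀.le_opNorm _).trans ?_
    have := norm_nonneg J₀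
    nlinarith
  have hgb' : |gg J₀ (J₀ (p - p₀)) w| ≤ LA J₀ * (‖J₀‖ * ‖w‖) :=
    hgb.trans (by gcongr)
  have hq : r ^ 2 ≤ ‖p - p₀‖ ^ 2 := pow_le_pow_left₀ hr.le hp1 2
  have hbase : r ^ 2 ≤ gg J₀ (p - p₀) (p - p₀) + ε ^ 2 := by
    have := sq_nonneg ε
    linarith
  have hpw : (gg J₀ (p - p₀) (p - p₀) + ε ^ 2) ^ (κ - 1) ≤ (r ^ 2) ^ (κ - 1) :=
    Real.rpow_le_rpow_of_nonpos (by positivity) hbase (by linarith)
  have hpw0 : 0 ≤ (gg J₀ (p - p₀) (p - p₀) + ε ^ 2) ^ (κ - 1) := by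
    have := gg_nonneg (J₀ := J₀) (p - p₀)
    positivity
  have hfb : |hf A κ ε (gg J₀ (p - p₀) (p - p₀))| ≤ A * (r ^ 2) ^ (κ - 1) := by
    unfold hf
    rw [abs_of_nonneg (mul_nonneg hA0 hpw0)]
    exact mul_le_mul_of_nonneg_left hpw hA0
  refine (mul_le_mul hfb hgb' (abs_nonneg _) (by positivity)).trans (le_of_eq ?_)
  ring

/-- the estimate on the shell -/
theorem shell {x sv nv a1 a2 c t n : ℝ} (hx0 : 0 ≤ x) (hx1 : x ≤ 1) (h1 : c * n ≤ sv)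
    (h2 : c * n ≤ nv) (h3 : |a1| ≤ t * n) (h4 : |a2| ≤ t * n) (h5 : 2 * t ≤ c / 2) (hn : 0 ≤ n) :
    c / 2 * n ≤ (1 - x) * sv + x * nv + (a1 - a2) := by
  have t4 := neg_abs_le a1
  have t5 := le_abs_self a2
  have t6 := mul_le_mul_of_nonneg_right h5 hn
  have t7 := mul_le_mul_of_nonneg_left h1 (show 0 ≤ 1 - x by linarith)
  have t8 := mul_le_mul_of_nonneg_left h2 hx0
  linarith

theorem eps_bound {m c W : ℝ} (hW : 0 ≤ W) (hm0 : 0 ≤ m) (hm : m ≤ c / (8 * (W + 1))) :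
    m * W ≤ c / 8 := by
  rw [le_div_iff₀ (by positivity)] at hm
  nlinarith

theorem local_rem {s : E d → Al d 2} {p₀ : E d} {R B γ c : ℝ} (hR : 0 < R) (hγ0 : 0 ≤ γ)
    (hγ : γ < (d : ℝ) - 1) (hB : 0 ≤ B) (hc : 0 < c)
    (hs : ContDiffOn ℝ ∞ s (Metric.ball p₀ R \ {p₀}))
    (hcl : ∀ p ∈ Metric.ball p₀ R \ {p₀}, extDeriv s p = 0)
    (hb : ∀ p ∈ Metric.ball p₀ R \ {p₀}, ‖s p‖ ≤ B * ‖p - p₀‖ ^ (-γ))
    {Js : E d → (E d →L[ℝ] E d)} (hJc : ContinuousAt Js p₀)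
    (hJ0 : ∀ v, Js p₀ (Js p₀ v) = -v)
    (hpos : ∀ p ∈ Metric.ball p₀ R \ {p₀}, ∀ v : E d, c * ‖v‖ ^ 2 ≤ s p ![v, Js p v])
    {κ r : ℝ} (hκ0 : 0 < κ) (hκ1 : κ ≤ 1) (hr : 0 < r)
    (hosc : ∀ δ : ℝ, 0 < δ → ∀ᶠ ε in 𝓝[>] (0 : ℝ), ∃ τ : ℝ, 0 ≤ τ ∧ τ ≤ δ ∧
      τ * ε ^ (2 - 2 * κ - γ) ≤ δ ∧ ∀ p ∈ Metric.ball p₀ r, ∀ q ∈ Metric.ball p₀ r,
        ‖p - q‖ ≤ ε → ‖Js p - Js q‖ ≤ τ) :
    ∃ s' : E d → Al d 2, ContDiffOn ℝ ∞ s' (Metric.ball p₀ R) ∧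
      (∀ p ∈ Metric.ball p₀ R, extDeriv s' p = 0) ∧
      (∀ p, 3 * R / 4 ≤ ‖p - p₀‖ → s' p = s p) ∧
      ∀ p ∈ Metric.ball p₀ R, ∀ v : E d, c / 2 * ‖v‖ ^ 2 ≤ s' p ![v, Js p v] := by
  have hγd : γ < d := by linarith
  obtain ⟨J₀, hJ₀⟩ : ∃ J₀, J₀ = Js p₀ := ⟨_, rfl⟩
  rw [← hJ₀] at hJ0
  have hL := one_le_LA J₀
  have hL0 : 0 < LA J₀ := by linarith
  obtain ⟨r', hr', hJr⟩ : ∃ r' : ℝ, 0 < r' ∧ ∀ p ∈ Metric.ball p₀ r',
      ‖Js p - J₀‖ ≤ κ / (6 * LA J₀) := by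
    have h1 : ∀ᶠ p in 𝓝 p₀, ‖Js p - J₀‖ < κ / (6 * LA J₀) := by
      have h2 : ContinuousAt (fun p => ‖Js p - J₀‖) p₀ := (hJc.sub continuousAt_const).norm
      refine h2.eventually_lt_const ?_
      change ‖Js p₀ - J₀‖ < _
      rw [← hJ₀, sub_self, norm_zero]
      positivity
    obtain ⟨r', hr', h2⟩ := Metric.eventually_nhds_iff_ball.1 h1
    exact ⟨r', hr', fun p hp => (h2 p hp).le⟩
  obtain ⟨R₁, hR₁0, hR₁R, hR₁r, hR₁r', hR₁1⟩ : ∃ R₁ : ℝ, 0 < R₁ ∧ R₁ ≤ R ∧ R₁ ≤ r ∧ R₁ ≤ r' ∧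
      R₁ ≤ 1 / 2 :=
    ⟨min (min R r) (min r' (1 / 2)), by positivity, (min_le_left _ _).trans (min_le_left _ _),
      (min_le_left _ _).trans (min_le_right _ _), (min_le_right _ _).trans (min_le_left _ _),
      (min_le_right _ _).trans (min_le_right _ _)⟩
  obtain ⟨ρ, hρ⟩ := moll_exists (d := d) one_pos
  obtain ⟨C, hC0, hC⟩ := KK_bound hρ hγ0 hγd
  -- the cut-off function
  obtain ⟨χ, hχi, hχo⟩ : ∃ χ : ContDiffBump p₀, χ.rIn = R₁ / 4 ∧ χ.rOut = R₁ / 2 :=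
    ⟨⟨R₁ / 4, R₁ / 2, by positivity, by linarith⟩, rfl, rfl⟩
  have hχs : ContDiff ℝ ∞ (χ : E d → ℝ) := χ.contDiff
  obtain ⟨M, hM⟩ := (hχs.continuous_fderiv (by simp)).bounded_above_of_compact_support
    (χ.hasCompactSupport.fderiv ℝ)
  have hM0 : 0 ≤ M := (norm_nonneg _).trans (hM 0)
  have hχ1 : ∀ p, ‖p - p₀‖ ≤ R₁ / 4 → χ p = 1 := by
    intro p hp
    apply χ.one_of_mem_closedBall
    rw [Metric.mem_closedBall, dist_eq_norm, hχi]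
    exact hp
  have hχ0 : ∀ p, R₁ / 2 ≤ ‖p - p₀‖ → χ p = 0 := by
    intro p hp
    apply χ.zero_of_le_dist
    rw [dist_eq_norm, hχo]
    exact hp
  -- constants
  obtain ⟨B', hB'⟩ : ∃ B', B' = B * (R₁ / 16) ^ (-γ) := ⟨_, rfl⟩
  have hB'0 : 0 ≤ B' := by rw [hB']; positivity
  obtain ⟨K, hK⟩ : ∃ K, K = ‖J₀‖ + 1 := ⟨_, rfl⟩
  have hK0 : 0 ≤ K := by rw [hK]; positivity
  have hJK : ∀ p ∈ Metric.ball p₀ R₁, ‖Js p‖ ≤ K := by
    intro p hp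
    have h1 := hJr p (Metric.ball_subset_ball hR₁r' hp)
    have h2 : κ / (6 * LA J₀) ≤ 1 := by
      rw [div_le_one (by positivity)]
      linarith
    have h3 := norm_add_le (Js p - J₀) J₀
    rw [sub_add_cancel] at h3
    rw [hK]
    linarith
  obtain ⟨Dc, hDc⟩ : ∃ Dc, Dc = B * C / (κ * LA J₀ ^ (κ - 1)) := ⟨_, rfl⟩
  have hDc0 : 0 ≤ Dc := by rw [hDc]; positivity
  obtain ⟨N₀, hN₀⟩ : ∃ N₀, N₀ = ((R₁ / 4) ^ 2) ^ (κ - 1) * (LA J₀ * ‖J₀‖) := ⟨_, rfl⟩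
  have hN₀0 : 0 ≤ N₀ := by rw [hN₀]; positivity
  -- the choice of `ε`
  obtain ⟨δ, hδ⟩ : ∃ δ, δ = c / (8 * (M * Dc * N₀ * K + 1)) := ⟨_, rfl⟩
  have hδ0 : 0 < δ := by rw [hδ]; positivity
  have hev1 : ∀ᶠ ε in 𝓝[>] (0 : ℝ), ε ∈ Ioo (0 : ℝ) (min (R₁ / 32) (c / (8 * (M * B' * K + 1)))) :=
    Ioo_mem_nhdsGT (by positivity)
  obtain ⟨ε, ⟨hε0, hεlt⟩, τ, hτ0, hτδ, hτε, hτJ⟩ := (hev1.and (hosc δ hδ0)).exists
  have hεR : ε < R₁ / 32 := hεlt.trans_le (min_le_left _ _)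
  have hεc : ε < c / (8 * (M * B' * K + 1)) := hεlt.trans_le (min_le_right _ _)
  obtain ⟨m, hm⟩ : ∃ m, m = max τ (τ * ε ^ (2 - 2 * κ - γ)) := ⟨_, rfl⟩
  have hm1 : τ ≤ m := by rw [hm]; exact le_max_left _ _
  have hm2 : τ * ε ^ (2 - 2 * κ - γ) ≤ m := by rw [hm]; exact le_max_right _ _
  have hmδ : m ≤ δ := by rw [hm]; exact max_le hτδ hτε
  have hm0 : 0 ≤ m := hτ0.trans hm1
  obtain ⟨A, hAd⟩ : ∃ A, A = Dc * m := ⟨_, rfl⟩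
  have hA0 : 0 ≤ A := by rw [hAd]; positivity
  -- the forms
  have hsub : Metric.ball p₀ R₁ \ {p₀} ⊆ Metric.ball p₀ R \ {p₀} :=
    sdiff_subset_sdiff_left (Metric.ball_subset_ball hR₁R)
  have hs1 := hs.mono hsub
  have hcl1 : ∀ p ∈ Metric.ball p₀ R₁ \ {p₀}, extDeriv s p = 0 := fun p hp => hcl p (hsub hp)
  have hb1 : ∀ p ∈ Metric.ball p₀ R₁ \ {p₀}, ‖s p‖ ≤ B * ‖p - p₀‖ ^ (-γ) :=
    fun p hp => hb p (hsub hp)
  have hpos1 : ∀ p ∈ Metric.ball p₀ R₁ \ {p₀}, ∀ v : E d, c * ‖v‖ ^ 2 ≤ s p ![v, Js p v] :=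
    fun p hp => hpos p (hsub hp)
  have hMo := sc_moll hρ hε0
  have hΦ := cut_integrable hγ0 hγd hs1 hb1
  have hW := WC_cut (WC_point hγ0 hγ hs1 hcl1 hb1)
  obtain ⟨la, hla⟩ : ∃ la, la = lam J₀ p₀ A κ ε := ⟨_, rfl⟩
  have hlas : ContDiff ℝ ∞ la := by rw [hla]; exact lam_contDiff p₀ A κ hε0
  obtain ⟨Mm, hMm⟩ : ∃ Mm, Mm = mol (sc ρ ε) (cutS s (Metric.ball p₀ R₁)) := ⟨_, rfl⟩
  have hMms : ContDiff ℝ ∞ Mm := by rw [hMm]; exact mol_smooth hMo hΦ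
  obtain ⟨N, hN⟩ : ∃ N : E d → Al d 2, N = fun p => Mm p + extDeriv la p := ⟨_, rfl⟩
  have hlas' : ContDiff ℝ ∞ (extDeriv la) :=
    contDiff_iff_contDiffAt.2 fun x => ext_contDiffAt hlas.contDiffAt
  have hNs : ContDiff ℝ ∞ N := by rw [hN]; exact hMms.add hlas'
  have hcb : ∀ p, ‖p - p₀‖ < 3 * R₁ / 4 → Metric.closedBall p ε ⊆ Metric.ball p₀ R₁ := by
    intro p hp q hq
    rw [Metric.mem_closedBall, dist_eq_norm] at hq
    rw [Metric.mem_ball, dist_eq_norm]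
    have h3 := norm_add_le (q - p) (p - p₀)
    rw [sub_add_sub_cancel] at h3
    linarith
  have hNc : ∀ p ∈ Metric.ball p₀ (R₁ / 4), extDeriv N p = 0 := by
    intro p hp
    rw [Metric.mem_ball, dist_eq_norm] at hp
    rw [hN, extDeriv_fun_add (hMms.contDiffAt.differentiableAt (by simp))
      (hlas'.contDiffAt.differentiableAt (by simp)), ext_ext hlas.contDiffAt, add_zero, hMm]
    exact mol_closed hMo hΦ hW (hcb p (by linarith))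
  -- the homotopy formula
  have hnc : Continuous (fun x : E d => ‖x - p₀‖) := by fun_prop
  obtain ⟨P, hP⟩ : ∃ P : Set (E d), P = {p | R₁ / 16 < ‖p - p₀‖ ∧ ‖p - p₀‖ < R₁} := ⟨_, rfl⟩
  obtain ⟨O, hO⟩ : ∃ O : Set (E d), O = {p | R₁ / 8 < ‖p - p₀‖ ∧ ‖p - p₀‖ < 3 * R₁ / 4} :=
    ⟨_, rfl⟩
  have hPo : IsOpen P := by
    rw [hP]
    exact (isOpen_lt continuous_const hnc).inter (isOpen_lt hnc continuous_const)
  have hOo : IsOpen O := by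
    rw [hO]
    exact (isOpen_lt continuous_const hnc).inter (isOpen_lt hnc continuous_const)
  have hPR : P ⊆ Metric.ball p₀ R₁ \ {p₀} := by
    intro p hp
    rw [hP] at hp
    refine ⟨by rw [Metric.mem_ball, dist_eq_norm]; exact hp.2, fun h => ?_⟩
    rw [mem_singleton_iff] at h
    have h2 := hp.1
    rw [h, sub_self, norm_zero] at h2
    linarith
  have hPB : ∀ p ∈ P, ‖s p‖ ≤ B' := by
    intro p hp
    refine (hb1 p (hPR hp)).trans ?_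
    rw [hB']
    refine mul_le_mul_of_nonneg_left ?_ hB
    rw [hP] at hp
    exact Real.rpow_le_rpow_of_nonpos (by positivity) hp.1.le (by linarith)
  have hOP : ∀ p ∈ O, Metric.closedBall p ε ⊆ P := by
    intro p hp q hq
    rw [hO] at hp
    rw [Metric.mem_closedBall, dist_eq_norm] at hq
    rw [hP]
    have h1 := hp.1
    have h2 := hp.2
    have h3 := norm_add_le (q - p) (p - p₀)
    rw [sub_add_sub_cancel] at h3
    have h4 := norm_sub_le (q - p₀) (q - p)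
    have e4 : q - p₀ - (q - p) = p - p₀ := by abel
    rw [e4] at h4
    exact ⟨by linarith, by linarith⟩
  obtain ⟨ht1, ht2, ht3⟩ := Pool.Agent.Y431.SY.t_HT d P O s ε B' (sc ρ ε) hPo hOo
    (hs1.mono hPR) (fun p hp => hcl1 p (hPR hp)) hPB hε0 hMo hOP
  obtain ⟨α, hα⟩ : ∃ α : E d → Al d 1, α = fun p => hA (sc ρ ε) s p + la p := ⟨_, rfl⟩
  have hmemO : ∀ p, R₁ / 8 < ‖p - p₀‖ → ‖p - p₀‖ < 3 * R₁ / 4 → p ∈ O := by
    intro p h1 h2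
    rw [hO]
    exact ⟨h1, h2⟩
  have hαs : ∀ p, R₁ / 8 < ‖p - p₀‖ → ‖p - p₀‖ < 3 * R₁ / 4 → ContDiffAt ℝ ∞ α p := by
    intro p h1 h2
    rw [hα]
    exact (ht1.contDiffAt (hOo.mem_nhds (hmemO p h1 h2))).add hlas.contDiffAt
  have hMmeq : ∀ p, ‖p - p₀‖ < 3 * R₁ / 4 → Mm p = mol (sc ρ ε) s p := by
    intro p hp
    rw [hMm, mol_cut hMo s (hcb p hp)]
  have hαd : ∀ p, R₁ / 8 < ‖p - p₀‖ → ‖p - p₀‖ < 3 * R₁ / 4 →
      extDeriv α p = N p - s p := by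
    intro p h1 h2
    have hpO := hmemO p h1 h2
    rw [hα, extDeriv_fun_add ((ht1.contDiffAt (hOo.mem_nhds hpO)).differentiableAt (by simp))
      (hlas.contDiffAt.differentiableAt (by simp)), ht2 p hpO, hN]
    change _ = Mm p + extDeriv la p - s p
    rw [hMmeq p h2]
    abel
  obtain ⟨s', g1, g2, g3, g4, g5⟩ := glue (s := s) (N := N) (α := α) (χ := χ) (p₀ := p₀)
    (r₁ := R₁ / 8) (r₂ := R₁ / 4) (r₃ := R₁ / 2) (r₄ := 3 * R₁ / 4) (R := R)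
    (by linarith) (by linarith) (by linarith) (by linarith) hs hcl hNs hNc hαs hαd hχs hχ1 hχ0
  -- the lower bound of `N`
  have hNlow : ∀ p, ‖p - p₀‖ < 3 * R₁ / 4 → ∀ v : E d, c * ‖v‖ ^ 2 ≤ N p ![v, Js p v] := by
    intro p hp v
    have hpR : p ∈ Metric.ball p₀ R₁ := by
      rw [Metric.mem_ball, dist_eq_norm]
      linarith
    have hT : 6 * LA J₀ * ‖Js p - J₀‖ ≤ κ := by
      have h1 := hJr p (Metric.ball_subset_ball hR₁r' hpR)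
      rw [le_div_iff₀ (by positivity)] at h1
      linarith only [h1]
    have k1 := N_low hρ hγ0 hγd hC0.le hC hB hs1 hb1 hpos1 hJ0 hκ0 hκ1 hε0 (by linarith) hτ0
      hm1 hm2 (hcb p hp) (by linarith)
      (fun q hq => hτJ p (Metric.ball_subset_ball hR₁r hpR) q
        (Metric.ball_subset_ball hR₁r (hcb p hp hq)) (by
          rw [Metric.mem_closedBall, dist_eq_norm] at hq
          rw [norm_sub_rev]
          exact hq)) hT v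
    have e1 : N p ![v, Js p v] = mol (sc ρ ε) s p ![v, Js p v] +
        extDeriv (lam J₀ p₀ (B * C / (κ * LA J₀ ^ (κ - 1)) * m) κ ε) p ![v, Js p v] := by
      rw [hN, ← hMmeq p hp, ← hDc, ← hAd, ← hla]
      rfl
    rw [e1]
    exact k1
  refine ⟨s', g1, g2, fun p hp => g3 p (by linarith), ?_⟩
  intro p hp v
  have hv0 : 0 ≤ c / 2 * ‖v‖ ^ 2 := by positivity
  by_cases h4 : ‖p - p₀‖ < R₁ / 4
  · rw [g4 p h4]
    have := hNlow p (by linarith) v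
    linarith
  rw [not_lt] at h4
  have hpP : p ∈ Metric.ball p₀ R \ {p₀} := by
    refine ⟨hp, fun h => ?_⟩
    rw [mem_singleton_iff] at h
    rw [h, sub_self, norm_zero] at h4
    linarith
  have hsp := hpos p hpP v
  by_cases h5 : ‖p - p₀‖ < 3 * R₁ / 4
  · rw [g5 p h4 h5]
    have hpR₁ : p ∈ Metric.ball p₀ R₁ := by
      rw [Metric.mem_ball, dist_eq_norm]
      linarith
    have hαb : ∀ w : E d, |α p ![w]| ≤ (ε * B' + A * N₀) * ‖w‖ := by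
      intro w
      have e1 : α p ![w] = hA (sc ρ ε) s p ![w] + lam J₀ p₀ A κ ε p ![w] := by
        rw [hα, ← hla]
        rfl
      rw [e1]
      refine (abs_add_le _ _).trans ?_
      have k2 := ht3 p (hmemO p (by linarith) h5)
      have k3 : |hA (sc ρ ε) s p ![w]| ≤ ε * B' * ‖w‖ :=
        (one_app (hA (sc ρ ε) s p) w).trans (mul_le_mul_of_nonneg_right k2 (norm_nonneg _))
      have k4 : |lam J₀ p₀ A κ ε p ![w]| ≤ A * N₀ * ‖w‖ := by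
        rw [hN₀]
        exact lam_shell p₀ hA0 hκ1 (by positivity) h4 (by linarith) w
      linarith only [k3, k4]
    have hd1 : ∀ w : E d, |fderiv ℝ χ p w| ≤ M * ‖w‖ := fun w =>
      ((fderiv ℝ χ p).le_opNorm w).trans (mul_le_mul_of_nonneg_right (hM p) (norm_nonneg _))
    have hJv : ‖Js p v‖ ≤ K * ‖v‖ :=
      ((Js p).le_opNorm v).trans (mul_le_mul_of_nonneg_right (hJK p hpR₁) (norm_nonneg _))
    obtain ⟨a₀, ha₀⟩ : ∃ a₀, a₀ = ε * B' + A * N₀ := ⟨_, rfl⟩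
    have ha₀0 : 0 ≤ a₀ := by rw [ha₀]; positivity
    rw [← ha₀] at hαb
    have t1 : |fderiv ℝ χ p v * α p ![Js p v]| ≤ M * a₀ * K * ‖v‖ ^ 2 := by
      rw [abs_mul]
      calc |fderiv ℝ χ p v| * |α p ![Js p v]| ≤ (M * ‖v‖) * (a₀ * ‖Js p v‖) :=
            mul_le_mul (hd1 v) (hαb _) (abs_nonneg _) (by positivity)
        _ ≤ (M * ‖v‖) * (a₀ * (K * ‖v‖)) := by gcongr
        _ = _ := by ring
    have t2 : |fderiv ℝ χ p (Js p v) * α p ![v]| ≤ M * a₀ * K * ‖v‖ ^ 2 := by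
      rw [abs_mul]
      calc |fderiv ℝ χ p (Js p v)| * |α p ![v]| ≤ (M * ‖Js p v‖) * (a₀ * ‖v‖) :=
            mul_le_mul (hd1 _) (hαb _) (abs_nonneg _) (by positivity)
        _ ≤ (M * (K * ‖v‖)) * (a₀ * ‖v‖) := by gcongr
        _ = _ := by ring
    have t3 : 2 * (M * a₀ * K) ≤ c / 2 := by
      have q1 : ε * (M * B' * K) ≤ c / 8 := eps_bound (by positivity) hε0.le hεc.le
      have q2 : m * (M * Dc * N₀ * K) ≤ c / 8 :=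
        eps_bound (by positivity) hm0 (by rw [← hδ]; exact hmδ)
      have e3 : M * a₀ * K = ε * (M * B' * K) + m * (M * Dc * N₀ * K) := by
        rw [ha₀, hAd]; ring
      rw [e3]
      linarith only [q1, q2]
    exact shell χ.nonneg χ.le_one hsp (hNlow p h5 v) t1 t2 t3 (sq_nonneg _)
  · rw [not_lt] at h5
    rw [g3 p h5]
    linarith

end Pool.Agent.V7H86.SG
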