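import Mathlib
import Pool.Agent.V7H86.SG.Loc

/-!
# Removal of an isolated singularity: choice of the exponent
-/

set_option autoImplicit false

open Set Filter Topology MeasureTheory
open scoped Manifold ContDiff Convolution

noncomputable section

namespace Pool.Agent.V7H86.SG

open Pool.Agent.Y501.SY Pool.Agent.Y515.SY

variable {d : ℕ}

theorem osc_choice {p₀ : E d} {r γ θ L : ℝ} (hγ0 : 0 ≤ γ) (hθ0 : 0 ≤ θ)
    (hγθ : γ < 2 + θ) {Js : E d → (E d →L[ℝ] E d)}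
    (hJc : ContinuousOn Js (Metric.closedBall p₀ r))
    (hH : ∀ p ∈ Metric.ball p₀ r, ∀ q ∈ Metric.ball p₀ r, ‖Js p - Js q‖ ≤ L * ‖p - q‖ ^ θ) :
    ∃ κ : ℝ, 0 < κ ∧ κ ≤ 1 ∧ ∀ δ : ℝ, 0 < δ → ∀ᶠ ε in 𝓝[>] (0 : ℝ), ∃ τ : ℝ, 0 ≤ τ ∧ τ ≤ δ ∧
      τ * ε ^ (2 - 2 * κ - γ) ≤ δ ∧ ∀ p ∈ Metric.ball p₀ r, ∀ q ∈ Metric.ball p₀ r,
        ‖p - q‖ ≤ ε → ‖Js p - Js q‖ ≤ τ := by
  by_cases hγ2 : γ < 2
  · refine ⟨(2 - γ) / 2, by linarith, by linarith, fun δ hδ => ?_⟩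
    have hu : UniformContinuousOn Js (Metric.closedBall p₀ r) :=
      (isCompact_closedBall p₀ r).uniformContinuousOn_of_continuous hJc
    rw [Metric.uniformContinuousOn_iff] at hu
    obtain ⟨ε₀, hε₀, h1⟩ := hu δ hδ
    have hev : ∀ᶠ ε in 𝓝[>] (0 : ℝ), ε ∈ Ioo (0 : ℝ) ε₀ := Ioo_mem_nhdsGT hε₀
    filter_upwards [hev] with ε hε
    refine ⟨δ, hδ.le, le_rfl, ?_, fun p hp q hq hpq => ?_⟩
    · have e1 : 2 - 2 * ((2 - γ) / 2) - γ = 0 := by ring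
      rw [e1, Real.rpow_zero, mul_one]
    · have h2 := h1 p (Metric.ball_subset_closedBall hp) q (Metric.ball_subset_closedBall hq)
        (by rw [dist_eq_norm]; linarith [hε.2])
      rw [dist_eq_norm] at h2
      exact h2.le
  · rw [not_lt] at hγ2
    have hθ : 0 < θ := by linarith
    obtain ⟨κ, hκ⟩ : ∃ κ, κ = min 1 ((2 + θ - γ) / 4) := ⟨_, rfl⟩
    have hκ0 : 0 < κ := by
      rw [hκ]
      exact lt_min one_pos (by linarith)
    have hκ2 : κ ≤ (2 + θ - γ) / 4 := by rw [hκ]; exact min_le_right _ _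
    refine ⟨κ, hκ0, by rw [hκ]; exact min_le_left _ _, fun δ hδ => ?_⟩
    have he : 0 < θ + (2 - 2 * κ - γ) := by linarith
    have lim : ∀ e : ℝ, 0 < e → ∀ᶠ ε in 𝓝[>] (0 : ℝ), |L| * ε ^ e ≤ δ := by
      intro e he
      have h1 : ContinuousAt (fun ε : ℝ => |L| * ε ^ e) 0 :=
        (Real.continuousAt_rpow_const 0 _ (Or.inr he.le)).const_mul _
      have h2 : ∀ᶠ ε in 𝓝 (0 : ℝ), |L| * ε ^ e < δ := by
        refine h1.eventually_lt_const ?_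
        change |L| * (0 : ℝ) ^ e < δ
        rw [Real.zero_rpow he.ne', mul_zero]
        exact hδ
      filter_upwards [nhdsWithin_le_nhds h2] with ε h using h.le
    filter_upwards [lim θ hθ, lim _ he, self_mem_nhdsWithin] with ε h1 h2 hε
    have hε0 : 0 < ε := hε
    refine ⟨|L| * ε ^ θ, by positivity, h1, ?_, fun p hp q hq hpq => ?_⟩
    · rw [mul_assoc, ← Real.rpow_add hε0]
      exact h2
    · refine (hH p hp q hq).trans ?_
      have h3 : ‖p - q‖ ^ θ ≤ ε ^ θ := Real.rpow_le_rpow (norm_nonneg _) hpq hθ0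
      calc L * ‖p - q‖ ^ θ ≤ |L| * ‖p - q‖ ^ θ :=
            mul_le_mul_of_nonneg_right (le_abs_self _) (Real.rpow_nonneg (norm_nonneg _) _)
        _ ≤ _ := mul_le_mul_of_nonneg_left h3 (abs_nonneg _)

end Pool.Agent.V7H86.SG
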