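import Mathlib
import Pool.Agent.V7H86.SG.Osc
import Pool.Agent.Y501.SY.FinalT

/-!
# Removal of an isolated singularity on a manifold
-/

set_option autoImplicit false

open Set Filter Topology MeasureTheory
open scoped Manifold ContDiff

noncomputable section

namespace Pool.Agent.V7H86.SG

open Pool.Agent.Y501.SY
open Pool.Agent.Y455.SY (A B AB BA A_surj Q Q_eq)

variable {d : ℕ} {X : Type} [TopologicalSpace X] [ChartedSpace (E d) X]

/-- smooth, closed and uniformly taming forms on the complement of `K` -/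
structure UP {m : ℕ} (F : X → E m) (J : End d X) (σ : Form d X 2) (K : Set X) : Prop where
  smooth : SmoothOff σ K
  closed : IsDOff σ 0 K
  pos : ∃ c : ℝ, 0 < c ∧ ∀ x, x ∉ K → ∀ v : TangentSpace (𝓡 d) x,
    c * nm F x v ^ 2 ≤ σ x ![v, J x v]

/-- growth of a form near a point -/
def Gro (σ : Form d X 2) (x : X) (γ : ℝ) : Prop :=
  ∃ B : ℝ, ∀ᶠ p in 𝓝 (chartAt (E d) x x), p ≠ chartAt (E d) x x →
    ‖pb (chartAt (E d) x).symm σ p‖ ≤ B * ‖p - chartAt (E d) x x‖ ^ (-γ)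

/-- Hölder continuity of `J` near a point -/
def Hol (J : End d X) (x : X) (θ : ℝ) : Prop :=
  ∃ L : ℝ, ∃ N ∈ 𝓝 (chartAt (E d) x x), ∀ p ∈ N, ∀ q ∈ N,
    ‖inChart J x p - inChart J x q‖ ≤ L * ‖p - q‖ ^ θ

variable [IsManifold (𝓡 d) ∞ X]

theorem inChart_sq {J : End d X} (hJ : IsAlmostComplex J) (x : X) {p : E d}
    (hp : p ∈ (chartAt (E d) x).target) (v : E d) : inChart J x p (inChart J x p v) = -v := by
  have h1 : B x p (J ((chartAt (E d) x).symm p) (A x p (B x p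
      (J ((chartAt (E d) x).symm p) (A x p v))))) =
      B x p (J ((chartAt (E d) x).symm p) (J ((chartAt (E d) x).symm p) (A x p v))) :=
    congrArg (fun u => B x p (J ((chartAt (E d) x).symm p) u)) (AB x hp _)
  have h2 : B x p (J ((chartAt (E d) x).symm p) (J ((chartAt (E d) x).symm p) (A x p v))) =
      B x p (-(A x p v)) := congrArg (B x p) (hJ.sq ((chartAt (E d) x).symm p) (A x p v))
  have h3 : B x p (-(A x p v)) = -v := by rw [map_neg, BA x hp]
  exact h1.trans (h2.trans h3)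

theorem step_point (hI : S_IMM) (hPa : S_PATCH2) [T2Space X] {m : ℕ} {F : X → E m}
    (hF : ContMDiff (𝓡 d) (𝓡 m) ∞ F)
    (hFi : ∀ x, Function.Injective (mfderiv (𝓡 d) (𝓡 m) F x)) {J : End d X}
    (hJ : IsAlmostComplex J) {K : Set X} (hK : IsClosed K) {w : Form d X 2} (hw : UP F J w K)
    {z : X} {A' : Set X} (hA : IsOpen A') (hzA : z ∈ A') (hAK : ∀ x ∈ A', x ∈ K → x = z)
    {γ θ : ℝ} (hγ0 : 0 ≤ γ) (hθ0 : 0 ≤ θ) (hγθ : γ < 2 + θ) (hγd : γ < (d : ℝ) - 1)
    (hg : Gro w z γ) (hh : Hol J z θ) :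
    ∃ (w' : Form d X 2) (M : Set X), IsClosed M ∧ M ⊆ A' ∧ UP F J w' (K \ {z}) ∧
      ∀ x, x ∉ M → w' x = w x := by
  obtain ⟨B₀, hB₀⟩ := hg
  obtain ⟨L, N₀, hN₀, hL⟩ := hh
  obtain ⟨p₀, hp₀⟩ : ∃ p₀, p₀ = chartAt (E d) z z := ⟨_, rfl⟩
  obtain ⟨e, he⟩ : ∃ e, e = chartAt (E d) z := ⟨_, rfl⟩
  have hzs : z ∈ e.source := by rw [he]; exact mem_chart_source (E d) z
  have hez : e z = p₀ := by rw [he, hp₀]
  have hzt : p₀ ∈ e.target := by rw [← hez]; exact e.map_source hzs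
  have hsz : e.symm p₀ = z := by rw [← hez, e.left_inv hzs]
  -- the ball
  obtain ⟨r, hr, hball⟩ : ∃ r : ℝ, 0 < r ∧ ∀ p ∈ Metric.closedBall p₀ r,
      p ∈ e.target ∧ e.symm p ∈ A' ∧ p ∈ N₀ ∧
        (p ≠ p₀ → ‖pb (chartAt (E d) z).symm w p‖ ≤ B₀ * ‖p - p₀‖ ^ (-γ)) := by
    have h1 : ContinuousAt e.symm p₀ := e.continuousAt_symm hzt
    have h3 : ∀ᶠ x in 𝓝 (e.symm p₀), x ∈ A' := by
      rw [hsz]
      exact hA.mem_nhds hzA
    have h4 := h1.eventually h3
    have h5 : ∀ᶠ p in 𝓝 p₀, p ∈ e.target := e.open_target.mem_nhds hzt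
    have h6 : ∀ᶠ p in 𝓝 p₀, p ∈ N₀ := by rw [hp₀]; exact hN₀
    rw [← hp₀] at hB₀
    obtain ⟨r, hr, h7⟩ := Metric.nhds_basis_closedBall.mem_iff.1 (h5.and (h4.and (h6.and hB₀)))
    exact ⟨r, hr, fun p hp => h7 hp⟩
  have hVt : Metric.closedBall p₀ r ⊆ e.target := fun p hp => (hball p hp).1
  have hV : Metric.ball p₀ r ⊆ e.target := Metric.ball_subset_closedBall.trans hVt
  obtain ⟨ci, Ci, hci, hCi, hnm⟩ := hI d m X F hF hFi z (Metric.closedBall p₀ r)
    (isCompact_closedBall p₀ r) (by rw [← he]; exact hVt)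
  obtain ⟨c₁, hc₁, hwc⟩ := hw.pos
  have hsK : ∀ p ∈ Metric.ball p₀ r \ {p₀}, e.symm p ∉ K := by
    rintro p ⟨hp, hpn⟩ hpK
    have h1 := hAK _ (hball p (Metric.ball_subset_closedBall hp)).2.1 hpK
    apply hpn
    rw [mem_singleton_iff, ← hez, ← h1, e.right_inv (hV hp)]
  have hVo : IsOpen (Metric.ball p₀ r \ {p₀}) := Metric.isOpen_ball.sdiff isClosed_singleton
  have hsymm : ContMDiffOn (𝓡 d) (𝓡 d) ∞ (chartAt (E d) z).symm (Metric.ball p₀ r) :=
    contMDiffOn_chart_symm.mono (by rw [← he]; exact hV)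
  have hs1 : ContDiffOn ℝ ∞ (pb (chartAt (E d) z).symm w) (Metric.ball p₀ r \ {p₀}) :=
    hw.smooth _ _ hVo (hsymm.mono sdiff_subset) (by rw [← he]; exact hsK)
  have hs2 : ∀ p ∈ Metric.ball p₀ r \ {p₀}, extDeriv (pb (chartAt (E d) z).symm w) p = 0 := by
    intro p hp
    have h1 := hw.closed _ _ hVo (hsymm.mono sdiff_subset) (by rw [← he]; exact hsK) p hp
    rw [h1, pb_zero]
    rfl
  have hs3 : ∀ p ∈ Metric.ball p₀ r \ {p₀},
      ‖pb (chartAt (E d) z).symm w p‖ ≤ |B₀| * ‖p - p₀‖ ^ (-γ) := by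
    intro p hp
    exact ((hball p (Metric.ball_subset_closedBall hp.1)).2.2.2 hp.2).trans
      (mul_le_mul_of_nonneg_right (le_abs_self _) (Real.rpow_nonneg (norm_nonneg _) _))
  have hs4 : ∀ p ∈ Metric.ball p₀ r \ {p₀}, ∀ v : E d, c₁ * ci ^ 2 * ‖v‖ ^ 2 ≤
      pb (chartAt (E d) z).symm w p ![v, inChart J z p v] := by
    intro p hp v
    have hpc : p ∈ Metric.closedBall p₀ r := Metric.ball_subset_closedBall hp.1
    have h0 := Q_eq w J z (p := p) (by rw [← he]; exact hV hp.1) v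
    unfold Q at h0
    rw [h0]
    have h1 := hwc ((chartAt (E d) z).symm p) (by rw [← he]; exact hsK p hp)
      (Pool.Agent.Y455.SY.A z p v)
    refine le_trans ?_ h1
    have h2 := (hnm p hpc v).1
    have h3 : (ci * ‖v‖) ^ 2 ≤ nm F ((chartAt (E d) z).symm p)
        (Pool.Agent.Y455.SY.A z p v) ^ 2 := by
      have : 0 ≤ ci * ‖v‖ := by positivity
      exact pow_le_pow_left₀ this h2 2
    calc _ = c₁ * (ci * ‖v‖) ^ 2 := by ring
      _ ≤ _ := by gcongr
  have hJc : ContinuousOn (inChart J z) (Metric.closedBall p₀ r) := (hJ.cont z).mono (by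
    rw [← he]; exact hVt)
  have hJa : ContinuousAt (inChart J z) p₀ :=
    hJc.continuousAt (Metric.closedBall_mem_nhds p₀ hr)
  have hJ0 : ∀ v, inChart J z p₀ (inChart J z p₀ v) = -v := fun v =>
    inChart_sq hJ z (by rw [← he]; exact hzt) v
  obtain ⟨κ, hκ0, hκ1, hosc⟩ := osc_choice hγ0 hθ0 hγθ hJc (fun p hp q hq =>
    hL p (hball p (Metric.ball_subset_closedBall hp)).2.2.1 q
      (hball q (Metric.ball_subset_closedBall hq)).2.2.1)
  obtain ⟨s', g1, g2, g3, g4⟩ := local_rem hr hγ0 hγd (abs_nonneg B₀)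
    (show 0 < c₁ * ci ^ 2 by positivity) hs1 hs2 hs3 hJa hJ0 hs4 hκ0 hκ1 hr hosc
  -- patching
  obtain ⟨O, hOd⟩ : ∃ O, O = e.source ∩ e ⁻¹' Metric.ball p₀ r := ⟨_, rfl⟩
  have hO : IsOpen O := by rw [hOd]; exact e.isOpen_inter_preimage Metric.isOpen_ball
  have heO : e '' O = Metric.ball p₀ r := by
    apply Subset.antisymm
    · rintro _ ⟨x, hx, rfl⟩
      rw [hOd] at hx
      exact hx.2
    · intro p hp
      refine ⟨e.symm p, ?_, e.right_inv (hV hp)⟩
      rw [hOd]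
      refine ⟨e.map_target (hV hp), ?_⟩
      rw [mem_preimage, e.right_inv (hV hp)]
      exact hp
  have hOs : O ⊆ e.source := by rw [hOd]; exact inter_subset_left
  have hzO : z ∈ O := by
    rw [hOd]
    refine ⟨hzs, ?_⟩
    rw [mem_preimage, hez]
    exact Metric.mem_ball_self hr
  have hKz : IsClosed (K \ {z}) := by
    have h1 : K \ {z} = K ∩ A'ᶜ := by
      ext x
      constructor
      · rintro ⟨hx, hxz⟩
        exact ⟨hx, fun h => hxz (hAK x h hx)⟩
      · rintro ⟨hx, hxA⟩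
        refine ⟨hx, fun h => hxA ?_⟩
        rw [mem_singleton_iff] at h
        rw [h]
        exact hzA
    rw [h1]
    exact hK.inter hA.isClosed_compl
  have hN'V : Metric.closedBall p₀ (3 * r / 4) ⊆ Metric.ball p₀ r :=
    Metric.closedBall_subset_ball (by linarith)
  obtain ⟨f1, f2, f3, f4⟩ := hPa d X z O K (K \ {z}) (Metric.closedBall p₀ (3 * r / 4)) s' w hO
    (by rw [← he]; exact hOs) hKz sdiff_subset (isCompact_closedBall _ _)
    (by rw [← he, heO]; exact hN'V)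
    (by
      intro x hx hx2
      have hxz : x = z := by
        by_contra h
        exact hx2 ⟨hx, h⟩
      rw [hxz, ← he, hez]
      exact ⟨hzO, Metric.mem_closedBall_self (by positivity)⟩)
    (by rw [← he, heO]; exact g1.mono sdiff_subset)
    (by
      rw [← he, heO]
      exact fun p hp => g2 p hp.1)
    (by
      intro p hp
      apply g3
      have h1 := hp.2
      rw [Metric.mem_closedBall, dist_eq_norm, not_le] at h1
      exact h1.le)
    hw.smooth hw.closed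
  obtain ⟨M, hM⟩ : ∃ M, M = e.symm '' Metric.closedBall p₀ (3 * r / 4) := ⟨_, rfl⟩
  have hMc : IsCompact M := by
    rw [hM]
    exact (isCompact_closedBall _ _).image_of_continuousOn
      (e.continuousOn_symm.mono (hN'V.trans hV))
  have hout : ∀ x, x ∉ M → patch z O s' w x = w x := by
    intro x hx
    by_cases hxO : x ∈ O
    · refine f3 x (Or.inr fun h => hx ?_)
      rw [hM]
      refine ⟨e x, by rw [he]; exact h, e.left_inv (hOs hxO)⟩
    · exact f3 x (Or.inl hxO)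
  refine ⟨patch z O s' w, M, hMc.isClosed, ?_, ⟨f1, f2, ?_⟩, hout⟩
  · rw [hM]
    rintro _ ⟨p, hp, rfl⟩
    exact (hball p (Metric.ball_subset_closedBall (hN'V hp))).2.1
  · refine ⟨min c₁ (c₁ * ci ^ 2 / 2 * (Ci⁻¹) ^ 2), lt_min hc₁ (by positivity), ?_⟩
    intro x hx v
    by_cases hxO : x ∈ O
    · have hp : e x ∈ Metric.ball p₀ r := by rw [hOd] at hxO; exact hxO.2
      obtain ⟨p, hpx⟩ : ∃ p, p = e x := ⟨_, rfl⟩
      have hxp : e.symm p = x := by rw [hpx, e.left_inv (hOs hxO)]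
      rw [← hpx] at hp
      subst hxp
      have hpc : p ∈ Metric.closedBall p₀ r := Metric.ball_subset_closedBall hp
      have hpt : p ∈ (chartAt (E d) z).target := by rw [← he]; exact hV hp
      subst he
      have hv := AB z hpt v
      obtain ⟨v', hv'⟩ : ∃ v', v' = Pool.Agent.Y455.SY.B z p v := ⟨_, rfl⟩
      rw [← hv'] at hv
      have h0 := Q_eq (patch z O s' w) J z hpt v'
      unfold Q at h0
      rw [hv, f4 p (by rw [heO]; exact hp)] at h0
      rw [← h0]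
      refine le_trans ?_ (g4 p hp v')
      have h4 := (hnm p hpc v').2
      change nm F ((chartAt (E d) z).symm p) (Pool.Agent.Y455.SY.A z p v') ≤ Ci * ‖v'‖ at h4
      rw [hv] at h4
      have n1 : 0 ≤ nm F ((chartAt (E d) z).symm p) v := norm_nonneg _
      have h6 : Ci⁻¹ * nm F ((chartAt (E d) z).symm p) v ≤ ‖v'‖ := by
        rw [inv_mul_eq_div, div_le_iff₀ hCi, mul_comm]
        exact h4
      have h7 : (Ci⁻¹ * nm F ((chartAt (E d) z).symm p) v) ^ 2 ≤ ‖v'‖ ^ 2 :=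
        pow_le_pow_left₀ (by positivity) h6 2
      calc min c₁ (c₁ * ci ^ 2 / 2 * (Ci⁻¹) ^ 2) * nm F ((chartAt (E d) z).symm p) v ^ 2
          ≤ (c₁ * ci ^ 2 / 2 * (Ci⁻¹) ^ 2) * nm F ((chartAt (E d) z).symm p) v ^ 2 := by
            have := min_le_right c₁ (c₁ * ci ^ 2 / 2 * (Ci⁻¹) ^ 2)
            gcongr
        _ = c₁ * ci ^ 2 / 2 * (Ci⁻¹ * nm F ((chartAt (E d) z).symm p) v) ^ 2 := by ring
        _ ≤ c₁ * ci ^ 2 / 2 * ‖v'‖ ^ 2 := by gcongr
    · rw [f3 x (Or.inl hxO)]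
      have hxK : x ∉ K := fun h => hx ⟨h, fun h' => hxO (by
        rw [mem_singleton_iff] at h'
        rw [h']
        exact hzO)⟩
      refine le_trans ?_ (hwc x hxK v)
      have := min_le_left c₁ (c₁ * ci ^ 2 / 2 * (Ci⁻¹) ^ 2)
      gcongr

end Pool.Agent.V7H86.SG
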