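import Mathlib
import Pool.Agent.V7H86.SG.St

/-!
# Removal of isolated singularities: the global statement
-/

set_option autoImplicit false

open Set Filter Topology MeasureTheory
open scoped Manifold ContDiff

noncomputable section

namespace Pool.Agent.V7H86.SG

open Pool.Agent.Y501.SY
open Pool.Agent.Y455.SY (A B AB BA A_surj Q Q_eq)
open Pool.Agent.Y929.SY (pos_near ev_to_chart ev_of_chart)

variable {d : ℕ} {X : Type} [TopologicalSpace X] [ChartedSpace (E d) X]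

theorem pb_congr {k : ℕ} {σ τ : Form d X k} {x₀ : X} {p : E d}
    (h : σ ((chartAt (E d) x₀).symm p) = τ ((chartAt (E d) x₀).symm p)) :
    pb (chartAt (E d) x₀).symm σ p = pb (chartAt (E d) x₀).symm τ p := by
  unfold pb
  rw [h]

theorem gro_congr {σ τ : Form d X 2} {x : X} {γ : ℝ} (hg : Gro σ x γ)
    (h : ∀ᶠ y in 𝓝 x, τ y = σ y) : Gro τ x γ := by
  obtain ⟨B, hB⟩ := hg
  refine ⟨B, ?_⟩
  filter_upwards [hB, ev_to_chart (d := d) h] with p hp hpe hne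
  rw [pb_congr hpe]
  exact hp hne

variable [IsManifold (𝓡 d) ∞ X]

theorem sm_bdd {η : Form d X 2} (hη : IsSmooth η) (x : X) :
    ∃ C : ℝ, 0 < C ∧ ∀ᶠ p in 𝓝 (chartAt (E d) x x), ‖pb (chartAt (E d) x).symm η p‖ ≤ C := by
  have h1 := hη _ (chartAt (E d) x).symm (chartAt (E d) x).open_target contMDiffOn_chart_symm
  have h2 : ContinuousAt (pb (chartAt (E d) x).symm η) (chartAt (E d) x x) :=
    h1.continuousOn.continuousAt ((chartAt (E d) x).open_target.mem_nhds (mem_chart_target (E d) x))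
  refine ⟨‖pb (chartAt (E d) x).symm η (chartAt (E d) x x)‖ + 1, by positivity, ?_⟩
  filter_upwards [h2.norm.eventually_lt_const (lt_add_one _)] with p hp using hp.le

theorem bdd_off' {K : Set X} (hK : IsClosed K) {σ : Form d X 2} (hσ : SmoothOff σ K)
    {x : X} (hx : x ∉ K) : BddAt σ K x := by
  have h1 : IsOpen ((chartAt (E d) x).target ∩ (chartAt (E d) x).symm ⁻¹' Kᶜ) :=
    (chartAt (E d) x).isOpen_inter_preimage_symm hK.isOpen_compl
  have h2 := hσ _ (chartAt (E d) x).symm h1 ((contMDiffOn_chart_symm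
    (I := 𝓡 d)).mono inter_subset_left) (fun p hp => hp.2)
  have h3 : chartAt (E d) x x ∈
      (chartAt (E d) x).target ∩ (chartAt (E d) x).symm ⁻¹' Kᶜ := by
    refine ⟨mem_chart_target (E d) x, ?_⟩
    rw [mem_preimage, (chartAt (E d) x).left_inv (mem_chart_source (E d) x)]
    exact hx
  have h4 : ContinuousAt (pb (chartAt (E d) x).symm σ) (chartAt (E d) x x) :=
    h2.continuousOn.continuousAt (h1.mem_nhds h3)
  refine ⟨‖pb (chartAt (E d) x).symm σ (chartAt (E d) x x)‖ + 1, ?_⟩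
  filter_upwards [h4.norm.eventually_lt_const (lt_add_one _)] with p hp _
  exact hp.le

theorem gro_add {σ η : Form d X 2} {x : X} {γ : ℝ} (hγ : 0 ≤ γ) (hg : Gro σ x γ)
    (hη : IsSmooth η) (ε : ℝ) : Gro (σ + ε • η) x γ := by
  obtain ⟨B, hB⟩ := hg
  obtain ⟨C, hC0, hC⟩ := sm_bdd hη x
  refine ⟨B + |ε| * C, ?_⟩
  filter_upwards [hB, hC, Metric.ball_mem_nhds _ one_pos] with p hp hpC hp1 hne
  rw [Metric.mem_ball, dist_eq_norm] at hp1
  have h0 : 0 < ‖p - chartAt (E d) x x‖ := norm_pos_iff.2 (sub_ne_zero.2 hne)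
  have h1 : 1 ≤ ‖p - chartAt (E d) x x‖ ^ (-γ) :=
    Real.one_le_rpow_of_pos_of_le_one_of_nonpos h0 hp1.le (by linarith)
  rw [pb_add, pb_smul]
  change ‖pb (chartAt (E d) x).symm σ p + ε • pb (chartAt (E d) x).symm η p‖ ≤ _
  refine (norm_add_le _ _).trans ?_
  rw [norm_smul, Real.norm_eq_abs, add_mul]
  have h2 := hp hne
  have h3 : |ε| * ‖pb (chartAt (E d) x).symm η p‖ ≤ |ε| * C :=
    mul_le_mul_of_nonneg_left hpC (abs_nonneg _)
  have h4 : 0 ≤ |ε| * C := by positivity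
  nlinarith

theorem bdd_add {σ η : Form d X 2} {K : Set X} {x : X} (hg : BddAt σ K x)
    (hη : IsSmooth η) (ε : ℝ) : BddAt (σ + ε • η) K x := by
  obtain ⟨B, hB⟩ := hg
  obtain ⟨C, hC0, hC⟩ := sm_bdd hη x
  refine ⟨B + |ε| * C, ?_⟩
  filter_upwards [hB, hC] with p hp hpC hpK
  rw [pb_add, pb_smul]
  change ‖pb (chartAt (E d) x).symm σ p + ε • pb (chartAt (E d) x).symm η p‖ ≤ _
  refine (norm_add_le _ _).trans ?_
  rw [norm_smul, Real.norm_eq_abs]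
  have h2 := hp hpK
  have h3 : |ε| * ‖pb (chartAt (E d) x).symm η p‖ ≤ |ε| * C :=
    mul_le_mul_of_nonneg_left hpC (abs_nonneg _)
  linarith

/-- removal of the singularities at finitely many isolated points -/
theorem rem_finite (hI : S_IMM) (hPa : S_PATCH2) [T2Space X] {m : ℕ} {F : X → E m}
    (hF : ContMDiff (𝓡 d) (𝓡 m) ∞ F)
    (hFi : ∀ x, Function.Injective (mfderiv (𝓡 d) (𝓡 m) F x)) {J : End d X}
    (hJ : IsAlmostComplex J) {K : Set X} (hK : IsClosed K) {w₀ : Form d X 2} (hw₀ : UP F J w₀ K)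
    {F₀ : Set X} (Az : X → Set X) (hAo : ∀ z, IsOpen (Az z)) (hAz : ∀ z ∈ F₀, z ∈ Az z)
    (hAK : ∀ z ∈ F₀, ∀ x ∈ Az z, x ∈ K → x = z) (hAd : F₀.PairwiseDisjoint Az)
    (hg : ∀ x ∈ F₀, ∃ γ θ : ℝ, 0 ≤ γ ∧ 0 ≤ θ ∧ γ < 2 + θ ∧ γ < (d : ℝ) - 1 ∧ Gro w₀ x γ ∧
      Hol J x θ) (t : Finset X) (ht : ∀ z ∈ t, z ∈ F₀) :
    ∃ (w : Form d X 2) (M : Set X), IsClosed M ∧ M ⊆ (⋃ z ∈ t, Az z) ∧
      UP F J w (K \ t) ∧ ∀ x, x ∉ M → w x = w₀ x := by
  classical
  induction t using Finset.induction_on with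
  | empty =>
    refine ⟨w₀, ∅, isClosed_empty, empty_subset _, ?_, fun x _ => rfl⟩
    rw [Finset.coe_empty, sdiff_empty]
    exact hw₀
  | insert a t ha ih =>
    obtain ⟨w, M, hM, hMt, hw, hwM⟩ := ih fun z hz => ht z (Finset.mem_insert_of_mem hz)
    have haF := ht a (Finset.mem_insert_self a t)
    have hKt : IsClosed (K \ (t : Set X)) := by
      have h1 : K \ (t : Set X) = K ∩ (⋃ z ∈ t, Az z)ᶜ := by
        ext x
        constructor
        · rintro ⟨hx, hxt⟩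
          refine ⟨hx, fun h => hxt ?_⟩
          obtain ⟨z, hz, hxz⟩ := mem_iUnion₂.1 h
          rw [hAK z (ht z (Finset.mem_insert_of_mem hz)) x hxz hx]
          exact hz
        · rintro ⟨hx, hxA⟩
          refine ⟨hx, fun h => hxA ?_⟩
          exact mem_iUnion₂.2 ⟨x, h, hAz x (ht x (Finset.mem_insert_of_mem h))⟩
      rw [h1]
      exact hK.inter (isOpen_biUnion fun z _ => hAo z).isClosed_compl
    have hAM : ∀ y ∈ Az a, y ∉ M := by
      intro y hy hyM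
      obtain ⟨z, hz, hyz⟩ := mem_iUnion₂.1 (hMt hyM)
      have hza : z ≠ a := fun h => ha (h ▸ hz)
      exact Set.disjoint_left.1 (hAd (ht z (Finset.mem_insert_of_mem hz)) haF hza) hyz hy
    obtain ⟨γ, θ, h1, h2, h3, h4, h5, h6⟩ := hg a haF
    have h5' : Gro w a γ := by
      refine gro_congr h5 ?_
      filter_upwards [(hAo a).mem_nhds (hAz a haF)] with y hy using hwM y (hAM y hy)
    obtain ⟨w', M', hM', hM't, hw', hwM'⟩ := step_point hI hPa hF hFi hJ hKt hw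
      (z := a) (A' := Az a) (hAo a) (hAz a haF) (fun x hx hxK => hAK a haF x hx hxK.1)
      h1 h2 h3 h4 h5' h6
    refine ⟨w', M ∪ M', hM.union hM', ?_, ?_, ?_⟩
    · rw [Finset.set_biUnion_insert]
      exact union_subset (hMt.trans subset_union_right) (hM't.trans subset_union_left)
    · have h7 : K \ ((insert a t : Finset X) : Set X) = (K \ (t : Set X)) \ {a} := by
        rw [Finset.coe_insert, sdiff_sdiff, union_singleton]
      rw [h7]
      exact hw'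
    · intro x hx
      rw [mem_union, not_or] at hx
      rw [hwM' x hx.2, hwM x hx.1]

theorem mainS (hd : 1 ≤ d) [CompactSpace X] [T2Space X] {J : End d X} (hJ : IsAlmostComplex J)
    {K : Set X} (hK : IsClosed K)
    (hH : ∀ x₀ : X, μH[(d : ℝ) - 1] (chartAt (E d) x₀ '' (K ∩ (chartAt (E d) x₀).source)) = 0)
    {F₀ : Set X} (hF₀ : F₀.Finite) (hF₀K : F₀ ⊆ K)
    (hiso : ∀ x ∈ F₀, ∃ N ∈ 𝓝 x, ∀ y ∈ N, y ∈ K → y = x)
    {σ : Form d X 2} (hσ : SmoothOff σ K) (hσc : IsDOff σ 0 K)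
    (hb : ∀ x, x ∉ F₀ → BddAt σ K x)
    (hg : ∀ x ∈ F₀, ∃ γ θ : ℝ, 0 ≤ γ ∧ 0 ≤ θ ∧ γ < 2 + θ ∧ γ < (d : ℝ) - 1 ∧ Gro σ x γ ∧
      Hol J x θ)
    (hpos : ∀ x, x ∉ K → ∀ v : TangentSpace (𝓡 d) x, 0 ≤ σ x ![v, J x v])
    (hthin : ∀ z, ¬ UTAt σ J K z →
      ThinAt2 0 0 J (connectedComponentIn {x | ¬ UTAt σ J K x} z) z)
    {U : Set X} (hU : IsOpen U) (hKU : K ⊆ U) :
    ∃ (α : Form d X 1) (η w : Form d X 2), IsSmooth α ∧ IsSmooth η ∧ IsD α η ∧ IsSmooth w ∧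
      IsClosedForm w ∧ (∀ x, TamesAt w J x) ∧ ∀ x, x ∉ U → w x = (σ + η) x := by
  classical
  have hI : S_IMM := Pool.Agent.Y44.SY.t_IMM
  have hQ : S_QB := Pool.Agent.Y44.SY.t_QB
  obtain ⟨m, F, hF, -, hFi⟩ := exists_embedding_euclidean_of_compact (I := 𝓡 d) (M := X)
  have hFc : IsClosed {x | ¬ UTAt σ J K x} :=
    (isOpen_UTAt hI hF hFi σ J K).isClosed_compl
  have hne : ∃ v : E d, v ≠ 0 := by
    have : Nontrivial (E d) := by
      have : Nonempty (Fin d) := ⟨⟨0, hd⟩⟩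
      infer_instance
    exact exists_ne 0
  have hD2 : D2 (0 : Form d X 2) 0 J {x | ¬ UTAt σ J K x} = {x | ¬ UTAt σ J K x} := by
    apply Subset.antisymm
    · exact fun x hx => hx.1
    · intro x hx
      obtain ⟨v, hv⟩ := hne
      exact ⟨hx, v, hv, rfl, rfl⟩
  obtain ⟨α, η, hpair, hη⟩ := level2 Pool.Agent.Y484.SY.t_GEN Pool.Agent.Y108.SY.t_PERT2
    Pool.Agent.Y925.SY.t_PLANAR hJ (σ := 0) (θ := 0) IsSmooth.zero IsSmooth.zero hFc (by
      rw [hD2]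
      exact hthin)
  obtain ⟨hα, hηs, hαη, hηc⟩ := hpair.props Pool.Agent.Y484.SY.t_GEN
  obtain ⟨ε, hε, hpos'⟩ := unif (isCompact_univ (X := X))
    (fun ε y => ∀ s : ℝ, 0 < s → s ≤ ε → y ∉ K →
      ∀ v : TangentSpace (𝓡 d) y, ε * s * nm F y v ^ 2 ≤ (σ + s • η) y ![v, J y v])
    (fun ε ε' y hle hp s hs hsε hy v => by
      refine le_trans ?_ (hp s hs (hsε.trans hle) hy v)
      exact mul_le_mul_of_nonneg_right (mul_le_mul_of_nonneg_right hle hs.le) (sq_nonneg _))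
    (fun x _ => pos_near hI hQ F hF hFi J hJ σ η K hηs hpos x (by
      by_cases h : UTAt σ J K x
      · exact Or.inl h
      · exact Or.inr fun v hv => hη x h v hv rfl rfl))
  have hw₀ : UP F J (σ + ε • η) K := by
    refine ⟨?_, ?_, ⟨ε * ε, by positivity, fun x hx v => hpos' x (mem_univ x) ε hε le_rfl hx v⟩⟩
    · intro U φ hU hφ hUK
      rw [pb_add, pb_smul]
      exact (hσ U φ hU hφ hUK).add (contDiffOn_const.smul (hηs U φ hU hφ))
    · intro U φ hU hφ hUK p hp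
      have h1 : DifferentiableAt ℝ (pb φ σ) p :=
        ((hσ U φ hU hφ hUK).contDiffAt (hU.mem_nhds hp)).differentiableAt (by simp)
      have h2 : DifferentiableAt ℝ (pb φ (ε • η)) p := (hηs.smul ε).diffAt hU hφ hp
      rw [pb_add, extDeriv_add h1 h2, hσc U φ hU hφ hUK p hp, pb_smul, extDeriv_smul,
        hηc U φ hU hφ p hp, pb_zero]
      simp
  -- disjoint neighbourhoods
  obtain ⟨V, hV, hVd⟩ := hF₀.t2_separation
  have hch : ∀ x : X, ∃ N : Set X, IsOpen N ∧ (x ∈ F₀ → x ∈ N ∧ ∀ y ∈ N, y ∈ K → y = x) := by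
    intro x
    by_cases hx : x ∈ F₀
    · obtain ⟨N, hN, hNK⟩ := hiso x hx
      obtain ⟨N', hN'N, hN'o, hxN'⟩ := mem_nhds_iff.1 hN
      exact ⟨N', hN'o, fun _ => ⟨hxN', fun y hy => hNK y (hN'N hy)⟩⟩
    · exact ⟨univ, isOpen_univ, fun h => absurd h hx⟩
  choose Nx hNo hNx using hch
  obtain ⟨w₁, M, hM, hMA, hw₁, hw₁M⟩ := rem_finite hI Pool.Agent.Y949.SY.t_PATCH2 hF hFi hJ hK
    hw₀ (F₀ := F₀) (fun z => V z ∩ Nx z ∩ U)
    (fun z => (((hV z).2).inter (hNo z)).inter hU)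
    (fun z hz => ⟨⟨(hV z).1, (hNx z hz).1⟩, hKU (hF₀K hz)⟩)
    (fun z hz x hx hxK => (hNx z hz).2 x hx.1.2 hxK)
    (fun x hx y hy hxy => (hVd hx hy hxy).mono
      (inter_subset_left.trans inter_subset_left) (inter_subset_left.trans inter_subset_left))
    (fun x hx => by
      obtain ⟨γ, θ, h1, h2, h3, h4, h5, h6⟩ := hg x hx
      exact ⟨γ, θ, h1, h2, h3, h4, gro_add h1 h5 hηs ε, h6⟩)
    hF₀.toFinset (fun z hz => hF₀.mem_toFinset.1 hz)
  rw [hF₀.coe_toFinset] at hw₁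
  have hMF : ∀ x ∈ M, x ∈ K → x ∈ F₀ := by
    intro x hx hxK
    obtain ⟨z, hz, hxz⟩ := mem_iUnion₂.1 (hMA hx)
    have hzF := hF₀.mem_toFinset.1 hz
    rw [(hNx z hzF).2 x hxz.1.2 hxK]
    exact hzF
  have hMU : M ⊆ U := by
    intro x hx
    obtain ⟨z, hz, hxz⟩ := mem_iUnion₂.1 (hMA hx)
    exact hxz.2
  have hK₁ : IsClosed (K \ F₀) := by
    have h1 : K \ F₀ = K ∩ (⋃ z ∈ F₀, Nx z)ᶜ := by
      ext x
      constructor
      · rintro ⟨hx, hxt⟩
        refine ⟨hx, fun h => hxt ?_⟩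
        obtain ⟨z, hz, hxz⟩ := mem_iUnion₂.1 h
        rw [(hNx z hz).2 x hxz hx]
        exact hz
      · rintro ⟨hx, hxA⟩
        exact ⟨hx, fun h => hxA (mem_iUnion₂.2 ⟨x, h, (hNx x h).1⟩)⟩
    rw [h1]
    exact hK.inter (isOpen_biUnion fun z _ => hNo z).isClosed_compl
  have hbd : ∀ x, BddAt w₁ (K \ F₀) x := by
    intro x
    by_cases hx : x ∈ K \ F₀
    · have hxM : x ∉ M := fun h => hx.2 (hMF x h hx.1)
      have h1 : ∀ᶠ y in 𝓝 x, y ∉ M ∧ y ∉ F₀ :=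
        (show ∀ᶠ y in 𝓝 x, y ∈ Mᶜ from hM.isOpen_compl.mem_nhds hxM).and
          (show ∀ᶠ y in 𝓝 x, y ∈ F₀ᶜ from hF₀.isClosed.isOpen_compl.mem_nhds hx.2)
      obtain ⟨B, hB⟩ := bdd_add (hb x hx.2) hηs ε
      refine ⟨B, ?_⟩
      filter_upwards [hB, ev_to_chart (d := d) h1] with p hp hp1 hpK
      rw [pb_congr (hw₁M _ hp1.1)]
      exact hp fun h => hpK ⟨h, hp1.2⟩
    · exact bdd_off' hK₁ hw₁.smooth hx
  obtain ⟨c, hc, hwc⟩ := hw₁.pos
  have hut : ∀ x, UTAt w₁ J (K \ F₀) x := fun x =>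
    (UTAt_iff hI hF hFi w₁ J (K \ F₀) x).2 ⟨c, hc, Eventually.of_forall fun y hy => hwc y hy⟩
  obtain ⟨α', η', w, q1, q2, q3, q4, q5, q6, q7⟩ := mainT hI hQ Pool.Agent.Y929.SY.t_GLOB
    Pool.Agent.Y501.SYP.t_STEP hd hJ hK₁
    (fun x₀ => measure_mono_null (image_mono (inter_subset_inter_left _ sdiff_subset)) (hH x₀))
    hw₁.smooth hw₁.closed hbd
    (fun x hx v => le_trans (by positivity) (hwc x hx v))
    (fun z hz => absurd (hut z) hz) hU (sdiff_subset.trans hKU)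
  refine ⟨ε • α + α', ε • η + η', w, (hα.smul ε).add q1, (hηs.smul ε).add q2,
    (hαη.smul ε).add q3 (hα.smul ε) q1, q4, q5, q6, fun x hx => ?_⟩
  rw [q7 x hx]
  change w₁ x + η' x = σ x + ((ε • η) x + η' x)
  rw [hw₁M x fun h => hx (hMU h), ← add_assoc]
  rfl

end Pool.Agent.V7H86.SG
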