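import Mathlib
import Pool.Agent.V7H86.SG.Gb

/-!
# Mild isolated singularities of closed forms taming an almost complex structure

The definitions used in the statement, and the final statement.
-/

set_option autoImplicit false

open Set Filter Topology MeasureTheory
open scoped Manifold ContDiff

noncomputable section

namespace Pool.Agent.V7H86.SG

section defs

open Pool.Agent.Y501.SYP

variable {V : Type} [NormedAddCommGroup V] [NormedSpace ℝ V]
  {X : Type} [TopologicalSpace X] [ChartedSpace V X]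

/-- In the chart at `x`, the norm of `σ` near `x` (outside `x`) is bounded by a constant times
the power `-γ` of the distance to `x`. -/
def GrowthNear (σ : Form V X 2) (x : X) (γ : ℝ) : Prop :=
  ∃ B : ℝ, ∀ᶠ p in 𝓝 (chartAt V x x), p ≠ chartAt V x x →
    ‖pb (chartAt V x).symm σ p‖ ≤ B * ‖p - chartAt V x x‖ ^ (-γ)

/-- In the chart at `x`, the endomorphism field `J` satisfies near `x` a Hölder condition with
exponent `θ`. -/
def HolderNear (J : End V X) (x : X) (θ : ℝ) : Prop :=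
  ∃ L : ℝ, ∃ N ∈ 𝓝 (chartAt V x x), ∀ p ∈ N, ∀ q ∈ N, ∀ v : V,
    ‖inChart J x p v - inChart J x q v‖ ≤ L * ‖p - q‖ ^ θ * ‖v‖

/-- `x` is isolated in `K`, and `σ` grows at `x` at most like the power `-γ` of the distance to
`x`, where `0 ≤ γ < dim - 1` and `γ < 2 + θ`, with an exponent `θ ≥ 0` such that `J` is Hölder
continuous with exponent `θ` near `x`. -/
def MildSing (σ : Form V X 2) (J : End V X) (K : Set X) (x : X) : Prop :=
  (∃ N ∈ 𝓝 x, ∀ y ∈ N, y ∈ K → y = x) ∧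
    ∃ γ θ : ℝ, 0 ≤ γ ∧ 0 ≤ θ ∧ γ < 2 + θ ∧ γ < (Module.finrank ℝ V : ℝ) - 1 ∧
      GrowthNear σ x γ ∧ HolderNear J x θ

end defs

section fin

open Pool.Agent.Y501.SY
open Pool.Agent.Y929.SY (bdd_near pb_apply2)

variable {d : ℕ} {X : Type} [TopologicalSpace X] [ChartedSpace (E d) X] [IsManifold (𝓡 d) ∞ X]

theorem bdd_to {m : ℕ} {F : X → E m} (hF : ContMDiff (𝓡 d) (𝓡 m) ∞ F)
    (hFi : ∀ x, Function.Injective (mfderiv (𝓡 d) (𝓡 m) F x)) {J : End d X}
    (hJ : IsAlmostComplex J) {σ : Form d X 2} {K : Set X} {x : X} (h : BddAt σ K x) :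
    ∃ ε : ℝ, 0 < ε ∧ ∀ᶠ y in 𝓝 x, y ∉ K → ∀ v w : TangentSpace (𝓡 d) y,
      ε * |σ y ![v, w]| ≤ nm F y v * nm F y w := by
  have h1 := bdd_near Pool.Agent.Y44.SY.t_IMM Pool.Agent.Y44.SY.t_QB F hF hFi J hJ σ 0 K
    IsSmooth.zero 0 x h
  have e : σ + (0 : ℝ) • (0 : Form d X 2) = σ := by
    rw [zero_smul, add_zero]
  rwa [e] at h1

theorem bdd_from {m : ℕ} {F : X → E m} (hF : ContMDiff (𝓡 d) (𝓡 m) ∞ F)
    (hFi : ∀ x, Function.Injective (mfderiv (𝓡 d) (𝓡 m) F x)) {σ : Form d X 2} {K : Set X}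
    {x : X} {ε : ℝ} (hε : 0 < ε) (h : ∀ᶠ y in 𝓝 x, y ∉ K → ∀ v w : TangentSpace (𝓡 d) y,
      ε * |σ y ![v, w]| ≤ nm F y v * nm F y w) : BddAt σ K x := by
  obtain ⟨r, hr, hball⟩ := Metric.nhds_basis_closedBall.mem_iff.1
    ((chartAt (E d) x).open_target.mem_nhds (mem_chart_target (E d) x))
  obtain ⟨c₁, C₁, hc₁, hC₁, hnm⟩ := Pool.Agent.Y44.SY.t_IMM d m X F hF hFi x _
    (isCompact_closedBall (chartAt (E d) x x) r) hball
  refine ⟨ε⁻¹ * (C₁ * C₁), ?_⟩
  have h1 := Pool.Agent.Y929.SY.ev_to_chart (d := d) h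
  filter_upwards [h1, Metric.closedBall_mem_nhds (chartAt (E d) x x) hr] with p hp hpN hpK
  refine norm_le2 _ (by positivity) fun v w => ?_
  rw [pb_apply2]
  have h2 := hp hpK (Pool.Agent.Y455.SY.A x p v) (Pool.Agent.Y455.SY.A x p w)
  have h3 := (hnm p hpN v).2
  have h4 := (hnm p hpN w).2
  change nm F ((chartAt (E d) x).symm p) (Pool.Agent.Y455.SY.A x p v) ≤ C₁ * ‖v‖ at h3
  change nm F ((chartAt (E d) x).symm p) (Pool.Agent.Y455.SY.A x p w) ≤ C₁ * ‖w‖ at h4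
  have h5 : 0 ≤ nm F ((chartAt (E d) x).symm p) (Pool.Agent.Y455.SY.A x p w) := norm_nonneg _
  have h6 := h2.trans (mul_le_mul h3 h4 h5 (by positivity))
  have h7 : ε * (ε⁻¹ * (C₁ * C₁) * ‖v‖ * ‖w‖) = C₁ * ‖v‖ * (C₁ * ‖w‖) := by
    field_simp
  rw [← h7] at h6
  exact le_of_mul_le_mul_left h6 hε

/-- the set of the unbounded singularities is finite -/
theorem unbdd_finite [CompactSpace X] [T2Space X] {J : End d X}
    (hJ : IsAlmostComplex J) {K : Set X} (hK : IsClosed K) {σ : Form d X 2}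
    (h : ∀ x ∈ K, BddAt σ K x ∨ ∃ N ∈ 𝓝 x, ∀ y ∈ N, y ∈ K → y = x) :
    {x | x ∈ K ∧ ¬ BddAt σ K x}.Finite := by
  obtain ⟨m, F, hF, -, hFi⟩ := exists_embedding_euclidean_of_compact (I := 𝓡 d) (M := X)
  have h1 : ∀ x ∈ K, ∃ N ∈ 𝓝 x, ∀ y ∈ N, y ∈ K → ¬ BddAt σ K y → y = x := by
    intro x hx
    rcases h x hx with hb | ⟨N, hN, hNK⟩
    · obtain ⟨ε, hε, h2⟩ := bdd_to hF hFi hJ hb
      obtain ⟨N, hN⟩ : ∃ N, N = {y | BddAt σ K y} := ⟨_, rfl⟩
      refine ⟨N, ?_, fun y hy _ hyb => absurd (by rw [hN] at hy; exact hy) hyb⟩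
      rw [hN]
      filter_upwards [eventually_eventually_nhds.2 h2] with y hy
      exact bdd_from hF hFi hε hy
    · exact ⟨N, hN, fun y hy hyK _ => hNK y hy hyK⟩
  choose! N hN hNK using h1
  obtain ⟨t, htK, htc⟩ := hK.isCompact.elim_nhds_subcover N hN
  refine t.finite_toSet.subset ?_
  rintro x ⟨hx, hxb⟩
  obtain ⟨z, hz, hxz⟩ := mem_iUnion₂.1 (htc hx)
  rw [hNK z (htK z hz) x hxz hx hxb]
  exact hz

end fin

open Pool.Agent.Y501.SYP

attribute [local instance] cs mf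

theorem gro_of {d : ℕ} {X : Type} [TopologicalSpace X] [ChartedSpace (ES d) X]
    {σ : Form (ES d) X 2} {x : X} {γ : ℝ} (h : GrowthNear σ x γ) :
    Gro (d := d) (X := X) σ x γ := h

theorem hol_of {d : ℕ} {X : Type} [TopologicalSpace X] [ChartedSpace (ES d) X]
    {J : End (ES d) X} {x : X} {θ : ℝ} (h : HolderNear J x θ) :
    Hol (d := d) (X := X) J x θ := by
  obtain ⟨L, N, hN, hL⟩ := h
  refine ⟨|L|, N, hN, fun p hp q hq => ?_⟩
  refine ContinuousLinearMap.opNorm_le_bound _ (by positivity) fun v => ?_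
  have h1 := hL p hp q hq v
  refine le_trans h1 ?_
  refine mul_le_mul_of_nonneg_right ?_ (norm_nonneg _)
  exact mul_le_mul_of_nonneg_right (le_abs_self _) (Real.rpow_nonneg (norm_nonneg _) _)

theorem finrank_ES (d : ℕ) : Module.finrank ℝ (ES d) = d := by
  have h : Module.finrank ℝ (EuclideanSpace ℝ (Fin d)) = d := by simp
  exact h

theorem mildSing {d : ℕ} {X : Type} [TopologicalSpace X] [ChartedSpace (ES d) X]
    [IsManifold 𝓘(ℝ, ES d) ∞ X] [CompactSpace X] [T2Space X] (hd : 1 ≤ d)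
    (J : End (ES d) X) (hJ : IsAlmostComplex J) (K : Set X) (hK : IsClosed K)
    (hH : ∀ x₀ : X, μH[(d : ℝ) - 1] (chartAt (ES d) x₀ '' (K ∩ (chartAt (ES d) x₀).source)) = 0)
    (σ : Form (ES d) X 2) (hσ : ClosedOff σ K)
    (hb : ∀ x ∈ K, BddNear σ K x ∨ MildSing σ J K x)
    (hpos : ∀ x, x ∉ K → ∀ v : TangentSpace 𝓘(ℝ, ES d) x, 0 ≤ qd σ J x v)
    (hsmall : ∀ z ∈ Crit σ J K, SmallAll J (connectedComponentIn (Crit σ J K) z) z)
    (U : Set X) (hU : IsOpen U) (hKU : K ⊆ U) :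
    ∃ (α : Form (ES d) X 1) (η w : Form (ES d) X 2), IsSmooth α ∧ IsSmooth η ∧ IsD α η ∧
      IsTamingSymplectic w J ∧ ∀ x, x ∉ U → w x = addF σ η x := by
  have hJ' := ac_of J hJ
  have hfin := unbdd_finite (d := d) (X := X) hJ' hK (σ := σ) (fun x hx => by
    rcases hb x hx with h | h
    · exact Or.inl h
    · exact Or.inr h.1)
  obtain ⟨α, η, w, h1, h2, h3, h4, h5, h6, h7⟩ := mainS (d := d) (X := X) hd
    (J := J) hJ' (K := K) hK hH hfin (fun x hx => hx.1)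
    (fun x hx => by
      rcases hb x hx.1 with h | h
      · exact absurd h hx.2
      · exact h.1)
    (σ := σ)
    (fun V φ hV hφ hp => (hσ V φ ⟨hV, hφ⟩ hp).1)
    (fun V φ hV hφ hp p hpV => (hσ V φ ⟨hV, hφ⟩ hp).2 p hpV)
    (fun x hx => by
      by_cases hxK : x ∈ K
      · by_contra hcon
        exact hx ⟨hxK, hcon⟩
      · exact bdd_off hK hσ hxK)
    (fun x hx => by
      rcases hb x hx.1 with h | h
      · exact absurd h hx.2
      · obtain ⟨γ, θ, g1, g2, g3, g4, g5, g6⟩ := h.2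
        rw [finrank_ES] at g4
        exact ⟨γ, θ, g1, g2, g3, g4, gro_of g5, hol_of g6⟩)
    hpos (fun z hz => smallAll_of hJ (hsmall z hz)) hU hKU
  exact ⟨α, η, w, (smooth_iff α).2 h1, (smooth_iff η).2 h2, (isD_iff α η).2 h3,
    symp_of ((smooth_iff w).2 h4) ((closed_iff w).2 h5) h6, h7⟩

end Pool.Agent.V7H86.SG
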